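import Mathlib

open Complex MeasureTheory Real Filter Topology Metric Set Polynomial

namespace Pool506.Nev

/-- the sum of the power series with coefficients `a` -/
noncomputable def S (a : ℕ → ℂ) (z : ℂ) : ℂ := ∑' n, a n * z ^ n

/-- the characteristic `T(r,f) = (1/2π) ∫ log⁺ |f(r e^{iθ})| dθ` -/
noncomputable def T (f : ℂ → ℂ) (r : ℝ) : ℝ :=
  (2 * π)⁻¹ * ∫ θ in (0 : ℝ)..(2 * π), log⁺ ‖f (r * Complex.exp (θ * I))‖

/-- the Nevanlinna class -/
def InN (f : ℂ → ℂ) : Prop :=
  DifferentiableOn ℂ f (ball 0 1) ∧ ∃ C : ℝ, ∀ r : ℝ, 0 < r → r < 1 → T f r ≤ C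

/-- coefficient multipliers from `N` to `N` -/
def IsMultiplier (l : ℕ → ℂ) : Prop :=
  ∀ a : ℕ → ℂ, (∀ z ∈ ball (0 : ℂ) 1, Summable fun n => a n * z ^ n) → InN (S a) →
    (∀ z ∈ ball (0 : ℂ) 1, Summable fun n => l n * a n * z ^ n) ∧ InN (S fun n => l n * a n)

theorem T_eq (f : ℂ → ℂ) (r : ℝ) : T f r = circleAverage (fun z => log⁺ ‖f z‖) 0 r := by
  simp [T, circleAverage, circleMap]

theorem summable_norm_of {a : ℕ → ℂ} (h : ∀ z ∈ ball (0 : ℂ) 1, Summable fun n => a n * z ^ n)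
    {r : ℝ} (h0 : 0 ≤ r) (h1 : r < 1) : Summable fun n => ‖a n‖ * r ^ n := by
  have := (h (r : ℂ) (by simp [abs_of_nonneg h0, h1])).norm
  refine this.congr fun n => ?_
  simp [abs_of_nonneg h0]

theorem diffOn_S {a : ℕ → ℂ} (h : ∀ z ∈ ball (0 : ℂ) 1, Summable fun n => a n * z ^ n) :
    DifferentiableOn ℂ (S a) (ball 0 1) := by
  intro z hz
  have hz1 : ‖z‖ < 1 := by simpa using hz
  obtain ⟨r, hr1, hr2⟩ := exists_between hz1
  have h0 : 0 ≤ r := (norm_nonneg z).trans hr1.le
  have hd : DifferentiableOn ℂ (S a) (ball 0 r) := by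
    refine differentiableOn_tsum_of_summable_norm (summable_norm_of h h0 hr2) ?_ isOpen_ball ?_
    · intro n
      fun_prop
    · intro n w hw
      have : ‖w‖ ≤ r := by
        have := mem_ball_zero_iff.1 hw
        exact this.le
      rw [norm_mul, norm_pow]
      gcongr
  exact (hd.differentiableAt (isOpen_ball.mem_nhds (by simpa using hr1))).differentiableWithinAt

/-- the multiplier acting on polynomials -/
noncomputable def Lam (l : ℕ → ℂ) (p : ℂ[X]) : ℂ[X] :=
  ∑ n ∈ p.support, monomial n (l n * p.coeff n)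

theorem Lam_coeff (l : ℕ → ℂ) (p : ℂ[X]) (n : ℕ) : (Lam l p).coeff n = l n * p.coeff n := by
  unfold Lam
  rw [finsetSum_coeff]
  simp only [coeff_monomial]
  by_cases h : n ∈ p.support
  · rw [Finset.sum_eq_single n]
    · simp
    · intro b _ hb
      simp [hb]
    · intro h'
      exact absurd h h'
  · rw [Finset.sum_eq_zero]
    · rw [notMem_support_iff.1 h, mul_zero]
    · intro b hb
      rw [if_neg]
      rintro rfl
      exact h hb

theorem eval_eq_tsum (p : ℂ[X]) (z : ℂ) : p.eval z = ∑' n, p.coeff n * z ^ n := by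
  rw [eval_eq_sum, Polynomial.sum, tsum_eq_sum]
  intro n hn
  rw [notMem_support_iff.1 hn, zero_mul]

theorem summable_coeff (p : ℂ[X]) (w : ℕ → ℝ) : Summable fun n => ‖p.coeff n‖ * w n := by
  refine summable_of_ne_finset_zero (s := p.support) fun n hn => ?_
  rw [notMem_support_iff.1 hn, norm_zero, zero_mul]

theorem norm_eval_le (p : ℂ[X]) {z : ℂ} {r : ℝ} (hz : ‖z‖ ≤ r) :
    ‖p.eval z‖ ≤ ∑' n, ‖p.coeff n‖ * r ^ n := by
  rw [eval_eq_tsum]
  have h0 : 0 ≤ r := (norm_nonneg z).trans hz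
  refine (norm_tsum_le_tsum_norm ?_).trans ?_
  · refine (summable_coeff p (fun n => ‖z‖ ^ n)).congr fun n => ?_
    simp
  · refine Summable.tsum_le_tsum (fun n => ?_) ?_ (summable_coeff p _)
    · rw [norm_mul, norm_pow]
      gcongr
    · refine (summable_coeff p (fun n => ‖z‖ ^ n)).congr fun n => ?_
      simp

theorem tsum_shift (N : ℕ) (q : ℂ[X]) (w : ℕ → ℝ) :
    ∑' n, ‖(X ^ N * q).coeff n‖ * w n = ∑ i ∈ Finset.range (q.natDegree + 1), ‖q.coeff i‖ * w (N + i) := by
  have hinj : Function.Injective (fun i : ℕ => i + N) := add_left_injective N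
  have h1 : ∑' i, (fun n => ‖(X ^ N * q).coeff n‖ * w n) (i + N)
      = ∑' n, ‖(X ^ N * q).coeff n‖ * w n := by
    refine hinj.tsum_eq (f := fun n => ‖(X ^ N * q).coeff n‖ * w n) ?_
    intro n hn
    simp only [Function.mem_support, ne_eq, mul_eq_zero, norm_eq_zero, not_or] at hn
    rw [coeff_X_pow_mul'] at hn
    by_cases h : N ≤ n
    · exact ⟨n - N, by simp [h]⟩
    · simp [h] at hn
  rw [← h1, tsum_eq_sum (s := Finset.range (q.natDegree + 1))]
  · refine Finset.sum_congr rfl fun i _ => ?_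
    simp only [coeff_X_pow_mul]
    rw [add_comm]
  · intro i hi
    have : q.natDegree < i := by
      simpa [Nat.lt_succ_iff] using hi
    simp only [coeff_X_pow_mul]
    rw [coeff_eq_zero_of_natDegree_lt this, norm_zero, zero_mul]

theorem cont_logp (p : ℂ[X]) : Continuous fun z : ℂ => log⁺ ‖p.eval z‖ := by
  have : Continuous fun z : ℂ => ‖p.eval z‖ := p.continuous.norm
  exact Real.continuous_posLog.comp this

theorem cont_log1 (p : ℂ[X]) : Continuous fun z : ℂ => Real.log (1 + ‖p.eval z‖) := by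
  have h : Continuous fun z : ℂ => 1 + ‖p.eval z‖ := continuous_const.add p.continuous.norm
  refine h.log fun z => ?_
  positivity

end Pool506.Nev
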