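import Pool.Agent.Helper506.Nev.Gliding

open Complex MeasureTheory Real Filter Topology Metric Set Polynomial

namespace Pool506.Nev

variable {l : ℕ → ℂ}

theorem log_one_add_sum_le {ι : Type*} (s : Finset ι) (f : ι → ℝ) (hf : ∀ i, 0 ≤ f i) (c : ℝ) (hc : 0 ≤ c) :
    Real.log (1 + (∑ i ∈ s, f i + c)) ≤ ∑ i ∈ s, Real.log (1 + f i) + Real.log (1 + c) := by
  classical
  induction s using Finset.induction_on with
  | empty => simp
  | insert i s hi ih =>
    rw [Finset.sum_insert hi, Finset.sum_insert hi]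
    have h0 : 0 ≤ ∑ i ∈ s, f i + c := add_nonneg (Finset.sum_nonneg fun i _ => hf i) hc
    have h1 := hf i
    have h2 : Real.log (1 + (f i + ∑ i ∈ s, f i + c)) ≤
        Real.log ((1 + f i) * (1 + (∑ i ∈ s, f i + c))) :=
      Real.log_le_log (by nlinarith) (by nlinarith [mul_nonneg h1 h0])
    rw [Real.log_mul (by positivity) (by positivity)] at h2
    linarith

theorem logp_le_log1 (x : ℝ) (hx : 0 ≤ x) : log⁺ x ≤ Real.log (1 + x) := by
  rw [Real.posLog_eq_log_max_one hx]
  refine Real.log_le_log (by positivity) ?_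
  exact max_le (by linarith) (by linarith)

theorem tail_le (H : Hump l) (J : ℕ) {z : ℂ} (hz : ‖z‖ ≤ H.R J) (f : ℕ → ℂ[X])
    (hf : ∀ j, J ≤ j → ‖(f j).eval z‖ ≤ (1 / 2) ^ j) (hs : Summable fun j => (f j).eval z) :
    ‖∑' j, (f j).eval z - ∑ j ∈ Finset.range J, (f j).eval z‖ ≤ 2 * (1 / 2) ^ J := by
  have h1 := hs.sum_add_tsum_nat_add J
  have h2 : ∑' j, (f j).eval z - ∑ j ∈ Finset.range J, (f j).eval z = ∑' j, (f (j + J)).eval z := by
    rw [← h1]; ring
  rw [h2]
  have hg : HasSum (fun j : ℕ => (1 / 2 : ℝ) ^ J * (1 / 2) ^ j) ((1 / 2) ^ J * 2) := by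
    have := (hasSum_geometric_two).mul_left ((1 / 2 : ℝ) ^ J)
    simpa using this
  refine (tsum_of_norm_bounded hg fun j => ?_).trans (by linarith)
  refine (hf (j + J) (by omega)).trans (le_of_eq ?_)
  rw [pow_add]; ring

theorem p_eval_le (H : Hump l) {J j : ℕ} (h : J ≤ j) {z : ℂ} (hz : ‖z‖ ≤ H.R J) :
    ‖(H.p j).eval z‖ ≤ (1 / 2) ^ j :=
  (norm_eval_le _ (hz.trans (H.mono h))).trans (H.h1 j)

theorem lp_eval_le (H : Hump l) {J j : ℕ} (h : J ≤ j) {z : ℂ} (hz : ‖z‖ ≤ H.R J) :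
    ‖(Lam l (H.p j)).eval z‖ ≤ (1 / 2) ^ j := by
  refine (norm_eval_le _ (hz.trans (H.mono h))).trans (le_trans (le_of_eq ?_) (H.h2 j))
  refine tsum_congr fun n => ?_
  rw [Lam_coeff, norm_mul]; ring

theorem contOn_S {a : ℕ → ℂ} (h : ∀ z ∈ ball (0 : ℂ) 1, Summable fun n => a n * z ^ n) {s : ℝ}
    (h0 : 0 < s) (h1 : s < 1) : CircleIntegrable (fun z => log⁺ ‖S a z‖) 0 s := by
  have hc : ContinuousOn (S a) (ball 0 1) := (diffOn_S h).continuousOn
  refine ContinuousOn.circleIntegrable h0.le ?_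
  have h2 : ContinuousOn (S a) (sphere 0 s) := hc.mono fun z hz => by
    simp only [mem_sphere_iff_norm, sub_zero] at hz
    simp [hz, h1]
  exact Real.continuous_posLog.comp_continuousOn h2.norm

theorem circleInt_logp (p : ℂ[X]) (s : ℝ) : CircleIntegrable (fun z => log⁺ ‖p.eval z‖) 0 s :=
  ((cont_logp p).comp (continuous_circleMap 0 s)).intervalIntegrable _ _

theorem circleInt_log1 (p : ℂ[X]) (s : ℝ) :
    CircleIntegrable (fun z => Real.log (1 + ‖p.eval z‖)) 0 s :=
  ((cont_log1 p).comp (continuous_circleMap 0 s)).intervalIntegrable _ _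

theorem circleInt_const (c : ℝ) (s : ℝ) : CircleIntegrable (fun _ : ℂ => c) 0 s :=
  (continuous_const).intervalIntegrable _ _

theorem Hump.a_summable (H : Hump l) : ∀ z ∈ ball (0 : ℂ) 1, Summable fun n => H.a n * z ^ n :=
  fun z hz => (H.a_hasSum (by simpa using hz)).1

theorem Hump.a_inN (H : Hump l) : InN (S H.a) := by
  refine ⟨diffOn_S H.a_summable, 4 + Real.log 3, fun s h0 h1 => ?_⟩
  rw [T_eq]
  obtain ⟨J, hJ⟩ := (H.ev h1).exists
  have key : ∀ z ∈ sphere (0 : ℂ) |s|, log⁺ ‖S H.a z‖ ≤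
      (∑ j ∈ Finset.range J, Real.log (1 + ‖(H.p j).eval z‖)) + Real.log 3 := by
    intro z hz
    rw [abs_of_pos h0] at hz
    simp only [mem_sphere_iff_norm, sub_zero] at hz
    obtain ⟨-, hS, hsum⟩ := H.a_hasSum (z := z) (by rw [hz]; exact h1)
    have ht := tail_le H J (z := z) (by rw [hz]; exact hJ) H.p
      (fun j hj => p_eval_le H hj (by rw [hz]; exact hJ)) hsum
    rw [← hS] at ht
    have hp : (1 / 2 : ℝ) ^ J ≤ 1 := pow_le_one₀ (by norm_num) (by norm_num)
    have h5 : ‖S H.a z‖ ≤ ∑ j ∈ Finset.range J, ‖(H.p j).eval z‖ + 2 := by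
      calc ‖S H.a z‖ = ‖∑ j ∈ Finset.range J, (H.p j).eval z +
            (S H.a z - ∑ j ∈ Finset.range J, (H.p j).eval z)‖ := by congr 1; ring
        _ ≤ ‖∑ j ∈ Finset.range J, (H.p j).eval z‖ +
            ‖S H.a z - ∑ j ∈ Finset.range J, (H.p j).eval z‖ := norm_add_le _ _
        _ ≤ ∑ j ∈ Finset.range J, ‖(H.p j).eval z‖ + 2 := by
            refine add_le_add (norm_sum_le _ _) (by linarith)
    calc log⁺ ‖S H.a z‖ ≤ Real.log (1 + ‖S H.a z‖) := logp_le_log1 _ (norm_nonneg _)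
      _ ≤ Real.log (1 + (∑ j ∈ Finset.range J, ‖(H.p j).eval z‖ + 2)) :=
          Real.log_le_log (by positivity) (by linarith)
      _ ≤ _ := by
          refine (log_one_add_sum_le _ _ (fun j => norm_nonneg _) 2 (by norm_num)).trans (le_of_eq ?_)
          norm_num
  have hint : CircleIntegrable (fun z => ∑ j ∈ Finset.range J, Real.log (1 + ‖(H.p j).eval z‖)) 0 s :=
    (continuous_finsetSum _ fun j _ => (cont_log1 (H.p j)).comp
      (continuous_circleMap 0 s)).intervalIntegrable _ _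
  have h6 := circleAverage_mono (contOn_S H.a_summable h0 h1)
    (hint.add (circleInt_const (Real.log 3) s)) key
  refine h6.trans ?_
  rw [circleAverage_add hint (circleInt_const _ s), circleAverage_const,
    circleAverage_fun_sum (fun j _ => circleInt_log1 (H.p j) s)]
  have h7 : ∑ j ∈ Finset.range J, circleAverage (fun z => Real.log (1 + ‖(H.p j).eval z‖)) 0 s ≤ 4 := by
    calc _ ≤ ∑ j ∈ Finset.range J, 2 * (1 / 2 : ℝ) ^ j :=
          Finset.sum_le_sum fun j _ => H.h3 j s h0 h1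
      _ = 2 * ∑ j ∈ Finset.range J, (1 / 2 : ℝ) ^ j := by rw [Finset.mul_sum]
      _ ≤ 2 * 2 := by
          refine mul_le_mul_of_nonneg_left ?_ (by norm_num)
          have := (summable_geometric_two).sum_le_tsum (Finset.range J) (fun i _ => by positivity)
          rwa [tsum_geometric_two] at this
      _ = 4 := by norm_num
  linarith

theorem Hump.false (H : Hump l) (hm : IsMultiplier l) : False := by
  obtain ⟨hsum, -, C, hC⟩ := hm H.a H.a_summable H.a_inN
  obtain ⟨J, hJ⟩ := exists_nat_gt C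
  have hr0 : 0 < H.r J := (H.R0 J).trans (H.Rr J)
  have h1 := hC (H.r J) hr0 (H.r1 J)
  rw [T_eq] at h1
  set A := ∑ i ∈ Finset.range J, ∑' n, ‖(Lam l (H.p i)).coeff n‖ with hA
  have hA0 : 0 ≤ A := Finset.sum_nonneg fun i _ => tsum_nonneg fun n => norm_nonneg _
  have key : ∀ z ∈ sphere (0 : ℂ) |H.r J|, log⁺ ‖(Lam l (H.p J)).eval z‖ ≤
      log⁺ ‖S (fun n => l n * H.a n) z‖ + (Real.log 2 + log⁺ (1 + A)) := by
    intro z hz
    rw [abs_of_pos hr0] at hz
    simp only [mem_sphere_iff_norm, sub_zero] at hz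
    obtain ⟨hS, hs⟩ := H.la_hasSum (z := z) (by rw [hz]; exact H.r1 J)
    have ht := tail_le H (J + 1) (z := z) (by rw [hz]; exact H.rR J) (fun j => Lam l (H.p j))
      (fun j hj => lp_eval_le H hj (by rw [hz]; exact H.rR J)) hs
    simp only [← hS] at ht
    have hp : (1 / 2 : ℝ) ^ J ≤ 1 := pow_le_one₀ (by norm_num) (by norm_num)
    rw [Finset.sum_range_succ] at ht
    set G := ∑ j ∈ Finset.range J, (Lam l (H.p j)).eval z
    have hG : ‖G‖ ≤ A := by
      refine (norm_sum_le _ _).trans (Finset.sum_le_sum fun j _ => ?_)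
      have := norm_eval_le (Lam l (H.p j)) (z := z) (r := 1) (by rw [hz]; exact (H.r1 J).le)
      simpa using this
    have h5 : ‖S (fun n => l n * H.a n) z - (Lam l (H.p J)).eval z‖ ≤ 1 + A := by
      have e : S (fun n => l n * H.a n) z - (Lam l (H.p J)).eval z =
          (S (fun n => l n * H.a n) z - (G + (Lam l (H.p J)).eval z)) + G := by ring
      rw [e]
      refine (norm_add_le _ _).trans (add_le_add ?_ hG)
      refine ht.trans ?_
      rw [pow_succ]
      linarith
    have h6 : ‖(Lam l (H.p J)).eval z‖ ≤ ‖S (fun n => l n * H.a n) z‖ + (1 + A) := by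
      have := norm_sub_norm_le ((Lam l (H.p J)).eval z) (S (fun n => l n * H.a n) z)
      rw [norm_sub_rev] at this
      linarith
    calc log⁺ ‖(Lam l (H.p J)).eval z‖ ≤ log⁺ (‖S (fun n => l n * H.a n) z‖ + (1 + A)) :=
          Real.posLog_le_posLog (norm_nonneg _) h6
      _ ≤ Real.log 2 + log⁺ ‖S (fun n => l n * H.a n) z‖ + log⁺ (1 + A) := Real.posLog_add
      _ = _ := by ring
  have hi := contOn_S (a := fun n => l n * H.a n) hsum hr0 (H.r1 J)
  have h7 := circleAverage_mono (circleInt_logp (Lam l (H.p J)) (H.r J))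
    (hi.add (circleInt_const (Real.log 2 + log⁺ (1 + A)) (H.r J))) key
  rw [circleAverage_add hi (circleInt_const _ _), circleAverage_const] at h7
  have h8 := H.h4 J
  rw [← hA] at h8
  unfold T1 at h8
  linarith

/-- growth of a multiplier -/
theorem tendsto_of_mult (hm : IsMultiplier l) (r : ℝ) (h0 : 0 ≤ r) (h1 : r < 1) :
    Tendsto (fun n => ‖l n‖ * r ^ n) atTop (𝓝 0) := by
  -- apply the multiplier to `∑ z^n / 2^n`... with coefficients `t^n`
  obtain ⟨t, ht1, ht2⟩ := exists_between h1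
  have ht0 : 0 < t := h0.trans_lt ht1
  -- a n = (r/t)^n, S a z = 1/(1 - (r/t) z), bounded
  set c : ℝ := r / t with hc
  have hc0 : 0 ≤ c := by positivity
  have hc1 : c < 1 := by rw [hc, div_lt_one ht0]; exact ht1
  have hsum : ∀ z ∈ ball (0 : ℂ) 1, Summable fun n => ((c : ℂ) ^ n) * z ^ n := by
    intro z hz
    have hz1 : ‖z‖ < 1 := by simpa using hz
    simp_rw [← mul_pow]
    refine summable_geometric_of_norm_lt_one ?_
    rw [norm_mul, Complex.norm_real, Real.norm_eq_abs, abs_of_nonneg hc0]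
    nlinarith [norm_nonneg z]
  have hN : InN (S fun n => (c : ℂ) ^ n) := by
    refine ⟨diffOn_S hsum, Real.log (1 + (1 - c)⁻¹), fun s hs0 hs1 => ?_⟩
    rw [T_eq]
    refine circleAverage_mono_on_of_le_circle (contOn_S hsum hs0 hs1) fun z hz => ?_
    rw [abs_of_pos hs0] at hz
    simp only [mem_sphere_iff_norm, sub_zero] at hz
    refine (logp_le_log1 _ (norm_nonneg _)).trans (Real.log_le_log (by positivity) ?_)
    have h3 : ‖S (fun n => (c : ℂ) ^ n) z‖ ≤ (1 - c)⁻¹ := by
      unfold S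
      refine tsum_of_norm_bounded (hasSum_geometric_of_lt_one hc0 hc1) fun n => ?_
      rw [norm_mul, norm_pow, norm_pow, Complex.norm_real, Real.norm_eq_abs, abs_of_nonneg hc0, hz]
      exact mul_le_of_le_one_right (by positivity) (pow_le_one₀ hs0.le hs1.le)
    linarith
  have h2 := (hm _ hsum hN).1 (t : ℂ) (by simp [abs_of_pos ht0, ht2])
  have h3 := h2.tendsto_atTop_zero.norm
  rw [norm_zero] at h3
  refine h3.congr fun n => ?_
  rw [norm_mul, norm_mul, norm_pow, norm_pow, Complex.norm_real, Complex.norm_real,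
    Real.norm_eq_abs, Real.norm_eq_abs, abs_of_nonneg hc0, abs_of_pos ht0, mul_assoc, ← mul_pow, hc,
    div_mul_cancel₀ _ ht0.ne']

/-- the uniform estimate -/
theorem uniform_bound (hm : IsMultiplier l) : ∃ δ > 0, ∃ C : ℝ, ∀ q : ℂ[X], rho q 1 ≤ δ →
    ∀ᶠ N in atTop, T1 (Lam l (X ^ N * q)) 1 ≤ C := by
  by_contra hcon
  push Not at hcon
  have hneg : NegBound l := by
    intro δ hδ C
    obtain ⟨q, hq, h⟩ := hcon δ hδ C
    exact ⟨q, hq, by simpa only [not_le] using h⟩
  obtain ⟨H⟩ := exists_hump l (tendsto_of_mult hm) hneg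
  exact H.false hm

end Pool506.Nev
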