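import Pool.Agent.Helper506.Nev.Bound

open Complex MeasureTheory Real Filter Topology Metric Set Polynomial

namespace Pool506.Nev

theorem normSq_one_add (θ : ℝ) : ‖(1 : ℂ) + circleMap 0 1 θ‖ ^ 2 = 2 + 2 * Real.cos θ := by
  rw [← Complex.normSq_eq_norm_sq]
  simp only [circleMap, Complex.ofReal_one, one_mul, zero_add]
  rw [Complex.exp_mul_I, ← Complex.ofReal_cos, ← Complex.ofReal_sin, Complex.normSq_apply]
  have h1 : ((1 : ℂ) + ((Real.cos θ : ℂ) + (Real.sin θ : ℂ) * I)).re = 1 + Real.cos θ := by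
    simp [-Complex.ofReal_cos, -Complex.ofReal_sin]
  have h2 : ((1 : ℂ) + ((Real.cos θ : ℂ) + (Real.sin θ : ℂ) * I)).im = Real.sin θ := by
    simp [-Complex.ofReal_cos, -Complex.ofReal_sin]
  rw [h1, h2]
  nlinarith [Real.sin_sq_add_cos_sq θ]

noncomputable def bump (A : ℝ) (L : ℕ) : ℂ[X] := Polynomial.C ((A : ℂ) / 4 ^ L) * (1 + X) ^ (2 * L)

theorem bump_norm (A : ℝ) (hA : 0 ≤ A) (L : ℕ) (θ : ℝ) :
    ‖(bump A L).eval (circleMap 0 1 θ)‖ = A * ((1 + Real.cos θ) / 2) ^ L := by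
  simp only [bump, eval_mul, eval_C, eval_pow, eval_add, eval_one, eval_X, norm_mul, norm_div,
    norm_pow, Complex.norm_real, Real.norm_eq_abs, abs_of_nonneg hA]
  rw [pow_mul, normSq_one_add]
  have h4 : ‖(4 : ℂ)‖ = 4 := by simp
  rw [h4, div_mul_eq_mul_div, mul_div_assoc, ← div_pow]
  congr 2
  ring

theorem bump_coeff (A : ℝ) (L : ℕ) : (bump A L).coeff L = (A : ℂ) / 4 ^ L * (L.centralBinom : ℂ) := by
  rw [bump, coeff_C_mul, coeff_one_add_X_pow, Nat.centralBinom]

theorem bump_coeff_ge (A : ℝ) (hA : 0 ≤ A) (L : ℕ) (hL : 0 < L) :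
    A / (2 * L) ≤ ‖(bump A L).coeff L‖ := by
  rw [bump_coeff, norm_mul, norm_div, norm_pow, Complex.norm_real, Real.norm_eq_abs,
    abs_of_nonneg hA, Complex.norm_natCast]
  have h4 : ‖(4 : ℂ)‖ = 4 := by simp
  rw [h4]
  have h := Nat.four_pow_le_two_mul_self_mul_centralBinom L hL
  have h' : (4 : ℝ) ^ L ≤ 2 * L * L.centralBinom := by exact_mod_cast h
  have hL' : (0 : ℝ) < 2 * L := by positivity
  rw [div_mul_eq_mul_div, div_le_div_iff₀ hL' (by positivity)]
  calc A * 4 ^ L ≤ A * (2 * L * L.centralBinom) := mul_le_mul_of_nonneg_left h' hA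
    _ = _ := by ring

theorem bump_rho (A : ℝ) (hA : 0 ≤ A) (L : ℕ) (h : ℝ) (h0 : 0 < h) (h1 : h ≤ 1) :
    rho (bump A L) 1 ≤ h * Real.log (1 + A) + A * Real.exp (-(L * h ^ 2 / π ^ 2)) := by
  have hpi := Real.pi_pos
  have hpi3 := Real.pi_gt_three
  set F : ℝ → ℝ := fun θ => Real.log (1 + ‖(bump A L).eval (circleMap 0 1 θ)‖) with hF
  have hFc : Continuous F := (cont_log1 _).comp (continuous_circleMap 0 1)
  have hint : ∀ a b, IntervalIntegrable F volume a b := fun a b => hFc.intervalIntegrable a b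
  have hcos01 : ∀ θ : ℝ, 0 ≤ (1 + Real.cos θ) / 2 ∧ (1 + Real.cos θ) / 2 ≤ 1 := fun θ => by
    constructor <;> nlinarith [Real.neg_one_le_cos θ, Real.cos_le_one θ]
  have hF1 : ∀ θ, F θ ≤ Real.log (1 + A) := by
    intro θ
    simp only [hF, bump_norm A hA]
    refine Real.log_le_log ?_ ?_
    · have := pow_nonneg (hcos01 θ).1 L
      positivity
    · have := pow_le_one₀ (n := L) (hcos01 θ).1 (hcos01 θ).2
      nlinarith
  set E : ℝ := A * Real.exp (-(L * h ^ 2 / π ^ 2)) with hE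
  have hE0 : 0 ≤ E := by positivity
  have hF2 : ∀ θ, h ≤ θ → θ ≤ 2 * π - h → F θ ≤ E := by
    intro θ ha hb
    simp only [hF, bump_norm A hA]
    have hcos : Real.cos θ ≤ Real.cos h := by
      rcases le_total θ π with hθ | hθ
      · exact Real.cos_le_cos_of_nonneg_of_le_pi h0.le hθ ha
      · have : Real.cos θ = Real.cos (2 * π - θ) := by rw [Real.cos_two_pi_sub]
        rw [this]
        exact Real.cos_le_cos_of_nonneg_of_le_pi h0.le (by linarith) (by linarith)
    have hq : Real.cos h ≤ 1 - 2 / π ^ 2 * h ^ 2 :=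
      Real.cos_le_one_sub_mul_cos_sq (by rw [abs_of_pos h0]; linarith)
    have h3 : (1 + Real.cos θ) / 2 ≤ Real.exp (-(h ^ 2 / π ^ 2)) := by
      have h4 := Real.add_one_le_exp (-(h ^ 2 / π ^ 2))
      have h5 : 2 / π ^ 2 * h ^ 2 = 2 * (h ^ 2 / π ^ 2) := by ring
      linarith
    have h6 : ((1 + Real.cos θ) / 2) ^ L ≤ Real.exp (-(L * h ^ 2 / π ^ 2)) := by
      calc _ ≤ Real.exp (-(h ^ 2 / π ^ 2)) ^ L := pow_le_pow_left₀ (hcos01 θ).1 h3 L
        _ = _ := by rw [← Real.exp_nat_mul]; congr 1; ring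
    have h7 : Real.log (1 + A * ((1 + Real.cos θ) / 2) ^ L) ≤ A * ((1 + Real.cos θ) / 2) ^ L := by
      have hp := pow_nonneg (hcos01 θ).1 L
      have := Real.log_le_sub_one_of_pos (x := 1 + A * ((1 + Real.cos θ) / 2) ^ L) (by positivity)
      linarith
    exact h7.trans (mul_le_mul_of_nonneg_left h6 hA)
  have e1 : ∫ θ in (0:ℝ)..2 * π, F θ = (∫ θ in (0:ℝ)..h, F θ) + (∫ θ in h..(2 * π - h), F θ) +
      ∫ θ in (2 * π - h)..(2 * π), F θ := by
    rw [intervalIntegral.integral_add_adjacent_intervals (hint _ _) (hint _ _),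
      intervalIntegral.integral_add_adjacent_intervals (hint _ _) (hint _ _)]
  have i1 : ∫ θ in (0:ℝ)..h, F θ ≤ h * Real.log (1 + A) := by
    have := intervalIntegral.integral_mono_on h0.le (hint 0 h)
      (continuous_const.intervalIntegrable (μ := volume) 0 h) (fun θ _ => hF1 θ)
    simpa using this
  have i3 : ∫ θ in (2 * π - h)..(2 * π), F θ ≤ h * Real.log (1 + A) := by
    have := intervalIntegral.integral_mono_on (by linarith) (hint (2 * π - h) (2 * π))
      (continuous_const.intervalIntegrable (μ := volume) (2 * π - h) (2 * π)) (fun θ _ => hF1 θ)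
    simpa using this
  have i2 : ∫ θ in h..(2 * π - h), F θ ≤ (2 * π) * E := by
    have := intervalIntegral.integral_mono_on (by linarith) (hint h (2 * π - h))
      (continuous_const.intervalIntegrable (μ := volume) h (2 * π - h))
      (fun θ hθ => hF2 θ hθ.1 hθ.2)
    rw [intervalIntegral.integral_const, smul_eq_mul] at this
    refine this.trans (mul_le_mul_of_nonneg_right (by linarith) hE0)
  have hlog : 0 ≤ Real.log (1 + A) := Real.log_nonneg (by linarith)
  unfold rho circleAverage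
  rw [smul_eq_mul]
  change (2 * π)⁻¹ * ∫ θ in (0:ℝ)..2 * π, F θ ≤ _
  rw [e1, inv_mul_le_iff₀ (by positivity)]
  nlinarith [mul_nonneg h0.le hlog]

theorem exists_bump (δ : ℝ) (hδ : 0 < δ) (B : ℝ) (hB : 0 < B) :
    ∃ (L : ℕ) (q : ℂ[X]), rho q 1 ≤ δ ∧ B ≤ ‖q.coeff L‖ := by
  have hpi := Real.pi_pos
  -- parameters: L = m^8, h = 1/m^2, A = 2 B m^8
  have t1 : Tendsto (fun m : ℕ => 1 / (m : ℝ) ^ 2 * (Real.log (1 + 2 * B) + 8 * m)) atTop (𝓝 0) := by
    have a1 : Tendsto (fun m : ℕ => Real.log (1 + 2 * B) * (1 / (m : ℝ) ^ 2)) atTop (𝓝 0) := by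
      have := (tendsto_const_nhds (x := Real.log (1 + 2 * B))).mul
        (tendsto_const_nhds (x := (1:ℝ)) |>.div_atTop ((tendsto_pow_atTop (two_ne_zero)).comp
          (tendsto_natCast_atTop_atTop (R := ℝ))))
      simpa using this
    have a2 : Tendsto (fun m : ℕ => 8 * (1 / (m : ℝ))) atTop (𝓝 0) := by
      have := (tendsto_const_nhds (x := (8:ℝ))).mul
        (tendsto_const_nhds (x := (1:ℝ)) |>.div_atTop (tendsto_natCast_atTop_atTop (R := ℝ)))
      simpa using this
    have a3 := a1.add a2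
    rw [add_zero] at a3
    refine a3.congr' ?_
    filter_upwards [eventually_gt_atTop 0] with m hm
    have : (m : ℝ) ≠ 0 := by positivity
    field_simp
  have t2 : Tendsto (fun m : ℕ => 2 * B * (m : ℝ) ^ 8 * Real.exp (-((m : ℝ) ^ 8 * (1 / (m : ℝ) ^ 2) ^ 2 / π ^ 2)))
      atTop (𝓝 0) := by
    have b1 := (Real.tendsto_pow_mul_exp_neg_atTop_nhds_zero 2).comp
      (((tendsto_pow_atTop (α := ℝ) (n := 4) (by norm_num)).comp
        (tendsto_natCast_atTop_atTop (R := ℝ))).atTop_div_const (show (0 : ℝ) < π ^ 2 by positivity))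
    have b2 := b1.const_mul (2 * B * π ^ 4)
    rw [mul_zero] at b2
    refine b2.congr' ?_
    filter_upwards [eventually_gt_atTop 0] with m hm
    have hm' : (m : ℝ) ≠ 0 := by positivity
    simp only [Function.comp_apply]
    have e1 : (m : ℝ) ^ 8 * (1 / (m : ℝ) ^ 2) ^ 2 / π ^ 2 = (m : ℝ) ^ 4 / π ^ 2 := by
      field_simp
    rw [e1]
    field_simp
  have t3 := t1.add t2
  rw [add_zero] at t3
  obtain ⟨m, hm, hm1⟩ := ((t3.eventually (Iic_mem_nhds hδ)).and (eventually_gt_atTop 0)).exists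
  have hm0 : (0 : ℝ) < m := by exact_mod_cast hm1
  have hm1' : (1 : ℝ) ≤ m := by exact_mod_cast hm1
  refine ⟨m ^ 8, bump (2 * B * (m : ℝ) ^ 8) (m ^ 8), ?_, ?_⟩
  · have h1 := bump_rho (2 * B * (m : ℝ) ^ 8) (by positivity) (m ^ 8) (1 / (m : ℝ) ^ 2) (by positivity)
      (by rw [div_le_one (by positivity)]; exact one_le_pow₀ hm1')
    refine h1.trans (le_trans ?_ hm)
    push_cast
    refine add_le_add ?_ le_rfl
    refine mul_le_mul_of_nonneg_left ?_ (by positivity)
    have h2 : 1 + 2 * B * (m : ℝ) ^ 8 ≤ (1 + 2 * B) * (m : ℝ) ^ 8 := by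
      have := one_le_pow₀ hm1' (n := 8)
      nlinarith
    calc Real.log (1 + 2 * B * (m : ℝ) ^ 8) ≤ Real.log ((1 + 2 * B) * (m : ℝ) ^ 8) :=
          Real.log_le_log (by positivity) h2
      _ = Real.log (1 + 2 * B) + 8 * Real.log m := by
          rw [Real.log_mul (by positivity) (by positivity), Real.log_pow]; norm_num
      _ ≤ _ := by
          have := Real.log_le_sub_one_of_pos hm0
          linarith
  · have := bump_coeff_ge (2 * B * (m : ℝ) ^ 8) (by positivity) (m ^ 8) (by positivity)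
    refine le_trans (le_of_eq ?_) this
    push_cast
    field_simp

end Pool506.Nev
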