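import Pool.Agent.Helper506.Nev.Bump

open Complex MeasureTheory Real Filter Topology Metric Set Polynomial

namespace Pool506.Nev

variable {l : ℕ → ℂ}

/-- Jensen: the constant coefficient is a lower bound -/
theorem log_coeff_zero_le (h : ℂ[X]) (h0 : h.coeff 0 ≠ 0) : Real.log ‖h.coeff 0‖ ≤ T1 h 1 := by
  have hne : h ≠ 0 := by rintro rfl; simp at h0
  have h1 := Polynomial.norm_coeff_le_choose_mul_mahlerMeasure 0 h
  rw [Nat.choose_zero_right, Nat.cast_one, one_mul] at h1
  have h2 : Real.log ‖h.coeff 0‖ ≤ h.logMahlerMeasure := by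
    rw [Polynomial.logMahlerMeasure_eq_log_MahlerMeasure]
    exact Real.log_le_log (norm_pos_iff.2 h0) h1
  refine h2.trans ?_
  rw [Polynomial.logMahlerMeasure_def]
  refine circleAverage_mono ?_ (circleInt_logp h 1) fun z _ => ?_
  · have := Polynomial.intervalIntegrable_mahlerMeasure (p := h)
    exact this
  · rw [Real.posLog_apply]
    exact le_max_right _ _

theorem T1_X_pow_mul (L : ℕ) (h : ℂ[X]) : T1 (X ^ L * h) 1 = T1 h 1 := by
  unfold T1
  refine circleAverage_congr_sphere fun z hz => ?_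
  simp only [abs_one, mem_sphere_iff_norm, sub_zero] at hz
  simp [hz]

theorem log_coeff_le (g : ℂ[X]) (L : ℕ) (h0 : ∀ i < L, g.coeff i = 0) (hL : g.coeff L ≠ 0) :
    Real.log ‖g.coeff L‖ ≤ T1 g 1 := by
  obtain ⟨h, rfl⟩ := Polynomial.X_pow_dvd_iff.2 h0
  rw [T1_X_pow_mul]
  have : (X ^ L * h).coeff L = h.coeff 0 := by
    have := coeff_X_pow_mul h L 0
    simpa using this
  rw [this] at hL ⊢
  exact log_coeff_zero_le h hL

theorem Lam_shift (N : ℕ) (q : ℂ[X]) :
    Lam l (X ^ N * q) = X ^ N * Lam (fun i => l (N + i)) q := by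
  ext n
  rw [Lam_coeff, coeff_X_pow_mul', coeff_X_pow_mul']
  split_ifs with h
  · rw [Lam_coeff]
    congr 2
    omega
  · simp

theorem T1_sub_le (f g : ℂ[X]) : T1 (f - g) 1 ≤ Real.log 2 + T1 f 1 + T1 g 1 := by
  have h := circleAverage_mono (circleInt_logp (f - g) 1)
    (((circleInt_const (Real.log 2) 1).add (circleInt_logp f 1)).add (circleInt_logp g 1))
    (fun z _ => by
      show log⁺ ‖(f - g).eval z‖ ≤ Real.log 2 + log⁺ ‖f.eval z‖ + log⁺ ‖g.eval z‖
      rw [eval_sub]
      refine le_trans ?_ (Real.posLog_add (x := ‖f.eval z‖) (y := ‖g.eval z‖))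
      exact Real.posLog_le_posLog (norm_nonneg _) (norm_sub_le _ _))
  rw [circleAverage_add ((circleInt_const (Real.log 2) 1).add (circleInt_logp f 1)) (circleInt_logp g 1),
    circleAverage_add (circleInt_const (Real.log 2) 1) (circleInt_logp f 1), circleAverage_const] at h
  exact h

/-- a multiplier is bounded -/
theorem bounded_of_mult (hm : IsMultiplier l) : ∃ B : ℝ, ∀ n, ‖l n‖ ≤ B := by
  obtain ⟨δ, hδ, C, h⟩ := uniform_bound hm
  have h1 : rho (Polynomial.C (δ : ℂ)) 1 ≤ δ := by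
    unfold rho
    simp only [eval_C, Complex.norm_real, Real.norm_eq_abs, abs_of_pos hδ]
    rw [circleAverage_const]
    have := Real.log_le_sub_one_of_pos (x := 1 + δ) (by linarith)
    linarith
  have h2 := h _ h1
  obtain ⟨N0, hN0⟩ := eventually_atTop.1 h2
  have h3 : ∀ n, N0 ≤ n → ‖l n‖ ≤ Real.exp C / δ := by
    intro n hn
    have h4 := hN0 n hn
    rw [Lam_shift, T1_X_pow_mul] at h4
    by_contra hcon
    push Not at hcon
    have hpos : 0 < ‖l n‖ := lt_of_le_of_lt (by positivity) hcon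
    have hc0 : (Lam (fun i => l (n + i)) (Polynomial.C (δ : ℂ))).coeff 0 = l n * δ := by
      rw [Lam_coeff]; simp
    have h5 := log_coeff_zero_le (Lam (fun i => l (n + i)) (Polynomial.C (δ : ℂ)))
      (by rw [hc0]; exact mul_ne_zero (norm_pos_iff.1 hpos) (by exact_mod_cast hδ.ne'))
    rw [hc0, norm_mul, Complex.norm_real, Real.norm_eq_abs, abs_of_pos hδ] at h5
    have h6 : Real.log (‖l n‖ * δ) ≤ C := h5.trans h4
    rw [Real.log_le_iff_le_exp (by positivity)] at h6
    rw [div_lt_iff₀ hδ] at hcon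
    linarith
  obtain ⟨M, hM⟩ : ∃ M : ℝ, ∀ n < N0, ‖l n‖ ≤ M := by
    refine ⟨∑ i ∈ Finset.range N0, ‖l i‖, fun n hn => ?_⟩
    exact Finset.single_le_sum (f := fun i => ‖l i‖) (fun i _ => norm_nonneg _)
      (Finset.mem_range.2 hn)
  refine ⟨max M (Real.exp C / δ), fun n => ?_⟩
  rcases lt_or_ge n N0 with hn | hn
  · exact (hM n hn).trans (le_max_left _ _)
  · exact (h3 n hn).trans (le_max_right _ _)

/-- determinism: long equal windows have the same continuation -/
theorem determinism (hm : IsMultiplier l) (c0 : ℝ) (hc0 : 0 < c0)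
    (hsep : ∀ n m, l n ≠ l m → c0 ≤ ‖l n - l m‖) :
    ∃ L N0 : ℕ, ∀ n m, N0 ≤ n → N0 ≤ m → (∀ i < L, l (n + i) = l (m + i)) → l (n + L) = l (m + L) := by
  obtain ⟨δ, hδ, C, h⟩ := uniform_bound hm
  obtain ⟨L, q, hq, hB⟩ := exists_bump δ hδ (Real.exp (Real.log 2 + C + C + 1) / c0) (by positivity)
  obtain ⟨N0, hN0⟩ := eventually_atTop.1 (h q hq)
  refine ⟨L, N0, fun n m hn hm' hw => ?_⟩
  by_contra hne
  have hn1 := hN0 n hn
  have hm1 := hN0 m hm'
  rw [Lam_shift, T1_X_pow_mul] at hn1 hm1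
  have hsub := T1_sub_le (Lam (fun i => l (n + i)) q) (Lam (fun i => l (m + i)) q)
  have hcoef : ∀ i, (Lam (fun i => l (n + i)) q - Lam (fun i => l (m + i)) q).coeff i =
      (l (n + i) - l (m + i)) * q.coeff i := fun i => by
    rw [coeff_sub, Lam_coeff, Lam_coeff]; ring
  have hqL : 0 < ‖q.coeff L‖ := lt_of_lt_of_le (by positivity) hB
  have hd : 0 < ‖l (n + L) - l (m + L)‖ := norm_pos_iff.2 (sub_ne_zero.2 hne)
  have h5 := log_coeff_le (Lam (fun i => l (n + i)) q - Lam (fun i => l (m + i)) q) L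
    (fun i hi => by rw [hcoef, hw i hi, sub_self, zero_mul])
    (by rw [hcoef]; exact mul_ne_zero (sub_ne_zero.2 hne) (norm_pos_iff.1 hqL))
  rw [hcoef, norm_mul] at h5
  have h6 := hsep _ _ hne
  have h7 : Real.exp (Real.log 2 + C + C + 1) ≤ ‖l (n + L) - l (m + L)‖ * ‖q.coeff L‖ := by
    calc Real.exp (Real.log 2 + C + C + 1) = c0 * (Real.exp (Real.log 2 + C + C + 1) / c0) := by
          field_simp
      _ ≤ _ := mul_le_mul h6 hB (by positivity) hd.le
  have h8 := Real.log_le_log (Real.exp_pos _) h7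
  rw [Real.log_exp] at h8
  linarith

/-- multipliers with a locally finite set of values are eventually periodic -/
theorem eventually_periodic (hm : IsMultiplier l)
    (hfin : ∀ R : ℝ, (Set.range l ∩ closedBall 0 R).Finite) :
    ∃ N d : ℕ, 0 < d ∧ ∀ n, N ≤ n → l (n + d) = l n := by
  obtain ⟨B, hB⟩ := bounded_of_mult hm
  have hfin' : (Set.range l).Finite := by
    refine (hfin B).subset fun x hx => ⟨hx, ?_⟩
    obtain ⟨n, rfl⟩ := hx
    simpa using hB n
  -- separation
  obtain ⟨c0, hc0, hsep⟩ : ∃ c0 : ℝ, 0 < c0 ∧ ∀ n m, l n ≠ l m → c0 ≤ ‖l n - l m‖ := by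
    classical
    set D : Set ℝ := (fun p : ℂ × ℂ => ‖p.1 - p.2‖) '' ((Set.range l) ×ˢ (Set.range l)) with hD
    have hDf : D.Finite := (hfin'.prod hfin').image _
    set D' := hDf.toFinset.filter (fun x => 0 < x)
    by_cases hne : D'.Nonempty
    · refine ⟨D'.min' hne, (Finset.mem_filter.1 (D'.min'_mem hne)).2, fun n m h => ?_⟩
      refine D'.min'_le _ (Finset.mem_filter.2 ⟨?_, norm_pos_iff.2 (sub_ne_zero.2 h)⟩)
      rw [Set.Finite.mem_toFinset]
      exact ⟨(l n, l m), ⟨⟨n, rfl⟩, ⟨m, rfl⟩⟩, rfl⟩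
    · refine ⟨1, one_pos, fun n m h => ?_⟩
      exfalso
      refine hne ⟨‖l n - l m‖, Finset.mem_filter.2 ⟨?_, norm_pos_iff.2 (sub_ne_zero.2 h)⟩⟩
      rw [Set.Finite.mem_toFinset]
      exact ⟨(l n, l m), ⟨⟨n, rfl⟩, ⟨m, rfl⟩⟩, rfl⟩
  obtain ⟨L, N0, hdet⟩ := determinism hm c0 hc0 hsep
  haveI : Finite (Set.range l) := hfin'
  obtain ⟨n, m, hnm, hw⟩ := Finite.exists_ne_map_eq_of_infinite
    (fun k : ℕ => (fun i : Fin L => (⟨l (N0 + k + i), ⟨_, rfl⟩⟩ : Set.range l)))
  wlog hlt : n < m generalizing n m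
  · exact this m n hnm.symm hw.symm (lt_of_le_of_ne (not_lt.1 hlt) hnm.symm)
  have hw' : ∀ i < L, l (N0 + n + i) = l (N0 + m + i) := fun i hi => by
    have := congrFun hw ⟨i, hi⟩
    exact Subtype.ext_iff.1 this
  have hall : ∀ i, l (N0 + n + i) = l (N0 + m + i) := by
    intro i
    induction i using Nat.strong_induction_on with
    | _ i ih =>
      rcases lt_or_ge i L with hi | hi
      · exact hw' i hi
      · have := hdet (N0 + n + (i - L)) (N0 + m + (i - L)) (by omega) (by omega) (fun k hk => by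
          have := ih (i - L + k) (by omega)
          rw [show N0 + n + (i - L) + k = N0 + n + (i - L + k) by ring,
            show N0 + m + (i - L) + k = N0 + m + (i - L + k) by ring]
          exact this)
        rw [show N0 + n + (i - L) + L = N0 + n + i by omega,
          show N0 + m + (i - L) + L = N0 + m + i by omega] at this
        exact this
  refine ⟨N0 + n, m - n, by omega, fun k hk => ?_⟩
  have := hall (k - (N0 + n))
  rw [show N0 + n + (k - (N0 + n)) = k by omega,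
    show N0 + m + (k - (N0 + n)) = k + (m - n) by omega] at this
  exact this.symm

end Pool506.Nev
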