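import Pool.Agent.Helper506.Nev.Step

open Complex MeasureTheory Real Filter Topology Metric Set Polynomial

namespace Pool506.Nev

/-- data of the gliding hump -/
structure Hump (l : ℕ → ℂ) where
  p : ℕ → ℂ[X]
  R : ℕ → ℝ
  r : ℕ → ℝ
  R0 : ∀ j, 0 < R j
  R1 : ∀ j, R j < 1
  Rlow : ∀ j : ℕ, 1 - 1 / ((j : ℝ) + 2) ≤ R j
  Rr : ∀ j, R j < r j
  r1 : ∀ j, r j < 1
  rR : ∀ j, r j ≤ R (j + 1)
  h1 : ∀ j, ∑' n, ‖(p j).coeff n‖ * R j ^ n ≤ (1 / 2) ^ j
  h2 : ∀ j, ∑' n, ‖(p j).coeff n‖ * (‖l n‖ * R j ^ n) ≤ (1 / 2) ^ j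
  h3 : ∀ j s, 0 < s → s < 1 → rho (p j) s ≤ 2 * (1 / 2) ^ j
  h4 : ∀ j : ℕ, (j : ℝ) + Real.log 2 +
    log⁺ (1 + ∑ i ∈ Finset.range j, ∑' n, ‖(Lam l (p i)).coeff n‖) < T1 (Lam l (p j)) (r j)

theorem exists_hump (l : ℕ → ℂ)
    (hl : ∀ r : ℝ, 0 ≤ r → r < 1 → Tendsto (fun n => ‖l n‖ * r ^ n) atTop (𝓝 0))
    (hneg : NegBound l) : Nonempty (Hump l) := by
  -- state: (R, A) ; R = current inner radius, A = sum of the norms of the previous blocks
  let St := {s : ℝ × ℝ // 0 < s.1 ∧ s.1 < 1}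
  let RR : ℕ → St → ℝ := fun j s => max s.1.1 (1 - 1 / ((j : ℝ) + 2))
  have RR0 : ∀ j s, 0 < RR j s := fun j s => lt_max_of_lt_left s.2.1
  have RR1 : ∀ j s, RR j s < 1 := fun j s => max_lt s.2.2 (by
    have : (0 : ℝ) < 1 / ((j : ℝ) + 2) := by positivity
    linarith)
  have key : ∀ (j : ℕ) (s : St), ∃ x : ℂ[X] × ℝ, RR j s < x.2 ∧ x.2 < 1 ∧
      (∑' n, ‖x.1.coeff n‖ * RR j s ^ n ≤ (1 / 2) ^ j) ∧
      (∑' n, ‖x.1.coeff n‖ * (‖l n‖ * RR j s ^ n) ≤ (1 / 2) ^ j) ∧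
      (∀ t : ℝ, 0 < t → t < 1 → rho x.1 t ≤ 2 * (1 / 2) ^ j) ∧
      (j : ℝ) + Real.log 2 + log⁺ (1 + s.1.2) < T1 (Lam l x.1) x.2 := by
    intro j s
    obtain ⟨p, r', a1, a2, a3, a4, a5, a6⟩ := step l hl hneg (RR j s) ((1 / 2) ^ j)
      ((j : ℝ) + Real.log 2 + log⁺ (1 + s.1.2)) (RR0 j s) (RR1 j s) (by positivity)
    exact ⟨(p, r'), a1, a2, a3, a4, a5, a6⟩
  choose F hF1 hF2 hF3 hF4 hF5 hF6 using key
  let nxt : ℕ → St → St := fun j s =>
    ⟨((F j s).2, s.1.2 + ∑' n, ‖(Lam l (F j s).1).coeff n‖),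
      (RR0 j s).trans (hF1 j s), hF2 j s⟩
  let st : ℕ → St := fun n => Nat.rec ⟨(1 / 2, 0), by norm_num, by norm_num⟩ (fun j s => nxt j s) n
  have hst : ∀ j, st (j + 1) = nxt j (st j) := fun j => rfl
  have hA : ∀ j, (st j).1.2 = ∑ i ∈ Finset.range j, ∑' n, ‖(Lam l (F i (st i)).1).coeff n‖ := by
    intro j
    induction j with
    | zero => rfl
    | succ j ih =>
      rw [hst, Finset.sum_range_succ, ← ih]
  refine ⟨{ p := fun j => (F j (st j)).1, R := fun j => RR j (st j), r := fun j => (F j (st j)).2,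
            R0 := fun j => RR0 j _, R1 := fun j => RR1 j _, Rlow := fun j => le_max_right _ _,
            Rr := fun j => hF1 j _, r1 := fun j => hF2 j _, rR := ?_, h1 := fun j => hF3 j _,
            h2 := fun j => hF4 j _, h3 := fun j s a b => hF5 j _ s a b, h4 := ?_ }⟩
  · intro j
    show (F j (st j)).2 ≤ max (st (j + 1)).1.1 _
    rw [hst]
    exact le_max_left _ _
  · intro j
    have := hF6 j (st j)
    rw [hA] at this
    exact this

variable {l : ℕ → ℂ}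

theorem Hump.mono (H : Hump l) {i j : ℕ} (h : i ≤ j) : H.R i ≤ H.R j := by
  induction h with
  | refl => exact le_rfl
  | step _ ih => exact ih.trans ((H.Rr _).le.trans (H.rR _))

theorem Hump.ev (H : Hump l) {t : ℝ} (ht : t < 1) : ∀ᶠ j in atTop, t ≤ H.R j := by
  have : Tendsto (fun j : ℕ => 1 - 1 / ((j : ℝ) + 2)) atTop (𝓝 (1 - 0)) :=
    tendsto_const_nhds.sub
      (tendsto_const_nhds.div_atTop (tendsto_natCast_atTop_atTop.atTop_add tendsto_const_nhds))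
  rw [sub_zero] at this
  filter_upwards [this.eventually (Ioi_mem_nhds ht)] with j hj
  exact (le_of_lt hj).trans (H.Rlow j)

/-- double summability with a weight `w` -/
theorem Hump.summable2 (H : Hump l) (w : ℕ → ℝ) (hw : ∀ n, 0 ≤ w n) {t : ℝ} (h0 : 0 ≤ t) (ht : t < 1)
    (hb : ∀ j, ∑' n, ‖(H.p j).coeff n‖ * (w n * H.R j ^ n) ≤ (1 / 2) ^ j) :
    Summable fun x : ℕ × ℕ => ‖(H.p x.1).coeff x.2‖ * (w x.2 * t ^ x.2) := by
  rw [summable_prod_of_nonneg (fun x => by have := hw x.2; positivity)]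
  refine ⟨fun j => summable_coeff (H.p j) (fun n => w n * t ^ n), ?_⟩
  refine Summable.of_norm_bounded_eventually_nat (g := fun j => (1 / 2 : ℝ) ^ j)
    (summable_geometric_of_lt_one (by norm_num) (by norm_num)) ?_
  filter_upwards [H.ev ht] with j hj
  rw [Real.norm_eq_abs, abs_of_nonneg (tsum_nonneg fun n => by have := hw n; positivity)]
  refine le_trans ?_ (hb j)
  refine Summable.tsum_le_tsum (fun n => ?_) (summable_coeff _ _) (summable_coeff _ _)
  have := hw n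
  gcongr

/-- the coefficients of the counterexample -/
noncomputable def Hump.a (H : Hump l) (n : ℕ) : ℂ := ∑' j, (H.p j).coeff n

theorem Hump.sum1 (H : Hump l) {z : ℂ} (hz : ‖z‖ < 1) :
    Summable fun x : ℕ × ℕ => (H.p x.1).coeff x.2 * z ^ x.2 := by
  have := H.summable2 (fun _ => 1) (fun _ => zero_le_one) (norm_nonneg z) hz
    (by simpa using H.h1)
  refine Summable.of_norm (this.congr fun x => ?_)
  rw [norm_mul, norm_pow, one_mul]

theorem Hump.sum2 (H : Hump l) {z : ℂ} (hz : ‖z‖ < 1) :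
    Summable fun x : ℕ × ℕ => (Lam l (H.p x.1)).coeff x.2 * z ^ x.2 := by
  have := H.summable2 (fun n => ‖l n‖) (fun _ => norm_nonneg _) (norm_nonneg z) hz H.h2
  refine Summable.of_norm (this.congr fun x => ?_)
  rw [Lam_coeff, norm_mul, norm_mul, norm_pow]
  ring

theorem Hump.a_hasSum (H : Hump l) {z : ℂ} (hz : ‖z‖ < 1) :
    (Summable fun n => H.a n * z ^ n) ∧ S H.a z = ∑' j, (H.p j).eval z ∧
      Summable fun j => (H.p j).eval z := by
  have h := H.sum1 hz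
  have hs : Summable fun x : ℕ × ℕ => (H.p x.2).coeff x.1 * z ^ x.1 := h.prod_symm
  refine ⟨?_, ?_, ?_⟩
  · refine hs.prod.congr fun n => ?_
    show ∑' j, (H.p j).coeff n * z ^ n = H.a n * z ^ n
    rw [Hump.a, tsum_mul_right]
  · unfold S Hump.a
    calc ∑' n, (∑' j, (H.p j).coeff n) * z ^ n = ∑' n, ∑' j, (H.p j).coeff n * z ^ n := by
          simp_rw [tsum_mul_right]
      _ = ∑' j, ∑' n, (H.p j).coeff n * z ^ n :=
          (Summable.tsum_comm (f := fun j n => (H.p j).coeff n * z ^ n) h).symm ▸ rfl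
      _ = _ := by simp_rw [← eval_eq_tsum]
  · refine h.prod.congr fun j => ?_
    rw [eval_eq_tsum]

theorem Hump.la_hasSum (H : Hump l) {z : ℂ} (hz : ‖z‖ < 1) :
    S (fun n => l n * H.a n) z = ∑' j, (Lam l (H.p j)).eval z ∧
      Summable fun j => (Lam l (H.p j)).eval z := by
  have h := H.sum2 hz
  refine ⟨?_, ?_⟩
  · unfold S Hump.a
    calc ∑' n, (l n * ∑' j, (H.p j).coeff n) * z ^ n
        = ∑' n, ∑' j, (Lam l (H.p j)).coeff n * z ^ n := by
          refine tsum_congr fun n => ?_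
          simp_rw [Lam_coeff]
          rw [tsum_mul_right, tsum_mul_left]
      _ = ∑' j, ∑' n, (Lam l (H.p j)).coeff n * z ^ n :=
          (Summable.tsum_comm (f := fun j n => (Lam l (H.p j)).coeff n * z ^ n) h).symm ▸ rfl
      _ = _ := by simp_rw [← eval_eq_tsum]
  · refine h.prod.congr fun j => ?_
    rw [eval_eq_tsum]

end Pool506.Nev
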