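import Mathlib

open Complex MeasureTheory Real Filter Topology Metric Set

namespace Pool506.Nev

/-- trigonometric polynomials are boundary values of `P₁ + conj P₂` -/
theorem trig_aux {R : ℝ} (hR : 0 < R) (hT : Fact (0 < 2 * π)) (t : C(AddCircle (2 * π), ℂ))
    (ht : t ∈ Submodule.span ℂ (Set.range (fourier (T := 2 * π)))) :
    ∃ P Q : ℂ → ℂ, Differentiable ℂ P ∧ Differentiable ℂ Q ∧
      ∀ θ : ℝ, t (θ : AddCircle (2 * π)) =
        P (circleMap 0 R θ) + (starRingEnd ℂ) (Q (circleMap 0 R θ)) := by
  have hRc : (R : ℂ) ≠ 0 := by exact_mod_cast hR.ne'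
  have hpi : (2 * (π : ℂ)) ≠ 0 := by
    have : (π : ℂ) ≠ 0 := by exact_mod_cast Real.pi_ne_zero
    simpa using this
  induction ht using Submodule.span_induction with
  | mem x hx =>
    obtain ⟨n, rfl⟩ := hx
    have hc : ∀ θ : ℝ, circleMap 0 R θ / R = Complex.exp (θ * Complex.I) := by
      intro θ
      rw [circleMap, zero_add]
      field_simp
    have hf : ∀ θ : ℝ, fourier n (θ : AddCircle (2 * π)) = Complex.exp (n * (θ * Complex.I)) := by
      intro θ
      rw [fourier_coe_apply]
      congr 1
      push_cast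
      field_simp
    rcases le_total 0 n with hn | hn
    · lift n to ℕ using hn
      refine ⟨fun w => (w / R) ^ n, fun _ => 0, by fun_prop, by fun_prop, fun θ => ?_⟩
      simp only [hf, hc]
      rw [← Complex.exp_nat_mul]
      simp
    · obtain ⟨m, rfl⟩ : ∃ m : ℕ, n = -(m : ℤ) := ⟨n.natAbs, by omega⟩
      refine ⟨fun _ => 0, fun w => (w / R) ^ m, by fun_prop, by fun_prop, fun θ => ?_⟩
      simp only [hf, hc]
      rw [← Complex.exp_nat_mul, zero_add, ← Complex.exp_conj]
      congr 1
      simp
  | zero =>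
    exact ⟨fun _ => 0, fun _ => 0, by fun_prop, by fun_prop, fun θ => by simp⟩
  | add x y _ _ hx hy =>
    obtain ⟨P1, Q1, h1, h2, h3⟩ := hx
    obtain ⟨P2, Q2, h4, h5, h6⟩ := hy
    refine ⟨fun w => P1 w + P2 w, fun w => Q1 w + Q2 w, by fun_prop, by fun_prop, fun θ => ?_⟩
    rw [ContinuousMap.add_apply, h3, h6, map_add]
    ring
  | smul a x _ hx =>
    obtain ⟨P1, Q1, h1, h2, h3⟩ := hx
    refine ⟨fun w => a * P1 w, fun w => (starRingEnd ℂ) a * Q1 w, by fun_prop, by fun_prop,
      fun θ => ?_⟩
    rw [ContinuousMap.smul_apply, h3, map_mul, Complex.conj_conj, smul_eq_mul]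
    ring

/-- continuous functions on the circle are approximated by real parts of entire functions -/
theorem approx_re {R : ℝ} (hR : 0 < R) (g : ℂ → ℝ) (hg : ContinuousOn g (sphere 0 R)) {ε : ℝ}
    (hε : 0 < ε) :
    ∃ P : ℂ → ℂ, Differentiable ℂ P ∧ ∀ w ∈ sphere (0 : ℂ) R, |(P w).re - g w| ≤ ε := by
  have hT : Fact (0 < 2 * π) := ⟨Real.two_pi_pos⟩
  let G : ℝ → ℂ := fun θ => ((g (circleMap 0 R θ) : ℝ) : ℂ)
  have hGp : Function.Periodic G (2 * π) := by
    intro θ
    simp only [G]
    rw [periodic_circleMap 0 R θ]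
  have hGc : Continuous G := by
    apply Complex.continuous_ofReal.comp
    exact hg.comp_continuous (continuous_circleMap 0 R) fun θ => circleMap_mem_sphere 0 hR.le θ
  let φ : C(AddCircle (2 * π), ℂ) := ⟨hGp.lift, by
    apply (QuotientAddGroup.isQuotientMap_mk (AddSubgroup.zmultiples (2 * π))).continuous_iff.2
    exact hGc⟩
  have hφ : ∀ θ : ℝ, φ (θ : AddCircle (2 * π)) = G θ := fun θ => rfl
  have hd : φ ∈ closure (Submodule.span ℂ (Set.range (fourier (T := 2 * π))) :
      Set C(AddCircle (2 * π), ℂ)) := by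
    have := span_fourier_closure_eq_top (T := 2 * π)
    have h2 : φ ∈ (Submodule.span ℂ (Set.range (fourier (T := 2 * π)))).topologicalClosure := by
      rw [this]; trivial
    exact h2
  obtain ⟨t, ht, htd⟩ := Metric.mem_closure_iff.1 hd ε hε
  obtain ⟨P, Q, hP, hQ, hPQ⟩ := trig_aux hR hT t ht
  refine ⟨fun w => P w + Q w, by fun_prop, fun w hw => ?_⟩
  obtain ⟨θ, rfl⟩ : w ∈ Set.range (circleMap 0 R) := by
    rw [range_circleMap, abs_of_pos hR]; exact hw
  have h1 : ‖φ (θ : AddCircle (2 * π)) - t (θ : AddCircle (2 * π))‖ ≤ ε := by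
    have h2 := ContinuousMap.dist_apply_le_dist (f := φ) (g := t) (θ : AddCircle (2 * π))
    rw [dist_eq_norm] at h2
    linarith
  rw [hφ, hPQ] at h1
  have h3 := Complex.abs_re_le_norm (G θ - (P (circleMap 0 R θ) +
    (starRingEnd ℂ) (Q (circleMap 0 R θ))))
  have h4 : (G θ - (P (circleMap 0 R θ) + (starRingEnd ℂ) (Q (circleMap 0 R θ)))).re =
      g (circleMap 0 R θ) - (P (circleMap 0 R θ) + Q (circleMap 0 R θ)).re := by
    simp [G]
  rw [h4] at h3
  rw [abs_sub_comm]
  linarith

/-- Poisson-Jensen inequality: `log⁺ |f|` is below its Poisson integral. -/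
theorem poisson_jensen {f : ℂ → ℂ} {R : ℝ} {z : ℂ} (hR : 0 < R)
    (hf : AnalyticOnNhd ℂ f (closedBall 0 R)) (hz : z ∈ ball (0 : ℂ) R) :
    log⁺ ‖f z‖ ≤ circleAverage (fun w => poissonKernel 0 z w * log⁺ ‖f w‖) 0 R := by
  have hfc : ContinuousOn f (sphere 0 R) := hf.continuousOn.mono sphere_subset_closedBall
  have hg : ContinuousOn (fun w => log⁺ ‖f w‖) (sphere 0 R) :=
    Real.continuous_posLog.comp_continuousOn hfc.norm
  have hK : ContinuousOn (poissonKernel 0 z) (sphere 0 R) := by
    rw [poissonKernel_eq_re_herglotzRieszKernel]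
    have := continuousOn_herglotzRieszKernel_sphere (c := 0) hz
    rw [abs_of_pos hR] at this
    exact Complex.continuous_re.comp_continuousOn this
  have hK0 : ∀ w ∈ sphere (0 : ℂ) R, 0 ≤ poissonKernel 0 z w := by
    intro w hw
    rw [poissonKernel_def]
    simp only [sub_zero]
    have h1 : ‖w‖ = R := by simpa using hw
    have h2 : ‖z‖ < R := by simpa using hz
    apply div_nonneg _ (sq_nonneg _)
    rw [h1]
    nlinarith [norm_nonneg z]
  have hci : ∀ u : ℂ → ℝ, ContinuousOn u (sphere 0 R) →
      CircleIntegrable (fun w => poissonKernel 0 z w * u w) 0 R := fun u hu =>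
    (hK.mul hu).circleIntegrable hR.le
  have h1K : circleAverage (fun w => poissonKernel 0 z w * 1) 0 R = 1 := by
    have h := DiffContOnCl.circleAverage_poissonKernel_smul (c := 0) (R := R) (w := z)
      (f := fun _ => (1 : ℂ)) (diffContOnCl_const) hz
    have e : (fun w => poissonKernel 0 z w * 1) =
        Complex.reCLM ∘ (poissonKernel 0 z • fun _ => (1 : ℂ)) := by
      funext w
      simp
    rw [e, Complex.reCLM.circleAverage_comp_comm, h]
    · simp
    · apply ContinuousOn.circleIntegrable hR.le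
      exact hK.smul continuousOn_const
  have hnn : 0 ≤ circleAverage (fun w => poissonKernel 0 z w * log⁺ ‖f w‖) 0 R := by
    have h := circleAverage_mono (f₁ := fun _ => (0 : ℝ)) (c := 0) (R := R)
      (continuousOn_const.circleIntegrable hR.le)
      (hci _ hg) (by
        intro w hw
        rw [abs_of_pos hR] at hw
        exact mul_nonneg (hK0 w hw) posLog_nonneg)
    simpa [circleAverage] using h
  rw [posLog_apply]
  apply max_le hnn
  by_cases hfz : f z = 0
  · rw [hfz]; simpa using hnn
  apply le_of_forall_pos_le_add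
  intro ε hε
  obtain ⟨P, hP, hPg⟩ := approx_re hR (fun w => log⁺ ‖f w‖) hg (half_pos hε)
  -- maximum principle
  have hmax : ‖f z * Complex.exp (-P z)‖ ≤ Real.exp (ε / 2) := by
    apply Complex.norm_le_of_forall_mem_frontier_norm_le (U := ball (0 : ℂ) R) isBounded_ball
      (f := fun z => f z * Complex.exp (-P z))
    · have h1 : DifferentiableOn ℂ (fun z => f z * Complex.exp (-P z)) (closure (ball 0 R)) := by
        rw [closure_ball _ hR.ne']
        exact hf.differentiableOn.mul (by fun_prop)
      exact h1.diffContOnCl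
    · intro w hw
      rw [frontier_ball _ hR.ne'] at hw
      rw [norm_mul, Complex.norm_exp, Complex.neg_re]
      have h1 := hPg w hw
      rw [abs_le] at h1
      have h2 : ‖f w‖ ≤ Real.exp (log⁺ ‖f w‖) := by
        rcases (norm_nonneg (f w)).eq_or_lt with h0 | h0
        · rw [← h0]; positivity
        · calc ‖f w‖ = Real.exp (Real.log ‖f w‖) := (Real.exp_log h0).symm
            _ ≤ _ := Real.exp_le_exp.2 (le_max_right _ _)
      calc ‖f w‖ * Real.exp (-(P w).re) ≤ Real.exp (log⁺ ‖f w‖) * Real.exp (-(P w).re) := by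
            gcongr
        _ = Real.exp (log⁺ ‖f w‖ - (P w).re) := by rw [← Real.exp_add]; ring_nf
        _ ≤ _ := Real.exp_le_exp.2 (by linarith [h1.1])
    · exact subset_closure hz
  have hlog : Real.log ‖f z‖ ≤ ε / 2 + (P z).re := by
    rw [norm_mul, Complex.norm_exp, Complex.neg_re] at hmax
    have h0 : 0 < ‖f z‖ := norm_pos_iff.2 hfz
    have h1 := Real.log_le_log (by positivity) hmax
    rw [Real.log_mul h0.ne' (Real.exp_pos _).ne', Real.log_exp, Real.log_exp] at h1
    linarith
  have hPz : (P z).re = circleAverage (fun w => poissonKernel 0 z w * (P w).re) 0 R := by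
    have h := DiffContOnCl.circleAverage_poissonKernel_smul (c := 0) (R := R) (w := z)
      (f := P) hP.diffContOnCl hz
    have e : (fun w => poissonKernel 0 z w * (P w).re) =
        Complex.reCLM ∘ (poissonKernel 0 z • P) := by
      funext w
      simp
    rw [e, Complex.reCLM.circleAverage_comp_comm, h]
    · simp
    · apply ContinuousOn.circleIntegrable hR.le
      exact hK.smul hP.continuous.continuousOn
  have hle : circleAverage (fun w => poissonKernel 0 z w * (P w).re) 0 R ≤
      circleAverage (fun w => poissonKernel 0 z w * (log⁺ ‖f w‖ + ε / 2)) 0 R := by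
    apply circleAverage_mono (hci _ (Complex.continuous_re.comp hP.continuous).continuousOn)
      (hci _ (hg.add continuousOn_const))
    intro w hw
    rw [abs_of_pos hR] at hw
    apply mul_le_mul_of_nonneg_left _ (hK0 w hw)
    have h1 := hPg w hw
    rw [abs_le] at h1
    change (P w).re ≤ log⁺ ‖f w‖ + ε / 2
    linarith [h1.2]
  have heq : circleAverage (fun w => poissonKernel 0 z w * (log⁺ ‖f w‖ + ε / 2)) 0 R =
      circleAverage (fun w => poissonKernel 0 z w * log⁺ ‖f w‖) 0 R + ε / 2 := by
    have e : (fun w => poissonKernel 0 z w * (log⁺ ‖f w‖ + ε / 2)) =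
        (fun w => poissonKernel 0 z w * log⁺ ‖f w‖) +
          (ε / 2) • (fun w => poissonKernel 0 z w * 1) := by
      funext w
      simp only [Pi.add_apply, Pi.smul_apply, smul_eq_mul]
      ring
    rw [e, circleAverage_add (hci _ hg) ((hci _ continuousOn_const).const_smul),
      circleAverage_smul, h1K, smul_eq_mul, mul_one]
  linarith

end Pool506.Nev
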