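import Pool.Agent.Helper506.Nev.Suff
import Pool.Agent.Helper506.Nev.Discrete

open Complex MeasureTheory Real Filter Topology Metric Set Polynomial

namespace Pool506.Nev

theorem per_add (l : ℕ → ℂ) (N d : ℕ) (h : ∀ n ≥ N, l (n + d) = l n) (n : ℕ) (hn : N ≤ n) (k : ℕ) :
    l (n + k * d) = l n := by
  induction k with
  | zero => simp
  | succ k ih =>
    rw [add_mul, one_mul, ← add_assoc, h _ (by omega), ih]

/-- eventually periodic sequences are, eventually, finite sums of unimodular exponentials -/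
theorem per_fourier (l : ℕ → ℂ) (N d : ℕ) (hd : 0 < d) (h : ∀ n ≥ N, l (n + d) = l n) :
    ∃ (J : ℕ) (c ζ : Fin J → ℂ), (∀ j, ‖ζ j‖ = 1) ∧ ∀ n ≥ N, l n = ∑ j, c j * ζ j ^ n := by
  have : NeZero d := ⟨hd.ne'⟩
  let Φ : ZMod d → ℂ := fun k => l (N + (k - (N : ZMod d)).val)
  have hΦ : ∀ n ≥ N, Φ (n : ZMod d) = l n := by
    intro n hn
    obtain ⟨m, rfl⟩ := Nat.exists_eq_add_of_le hn
    simp only [Φ]
    have h1 : (((N + m : ℕ) : ZMod d) - (N : ZMod d)) = (m : ZMod d) := by push_cast; ring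
    rw [h1, ZMod.val_natCast]
    have h2 : N + m = (N + m % d) + (m / d) * d := by
      have := Nat.mod_add_div m d
      rw [mul_comm] at this
      omega
    rw [h2, per_add l N d h _ (by omega)]
  let e := Fintype.equivFin (ZMod d)
  refine ⟨Fintype.card (ZMod d), fun j => (d : ℂ)⁻¹ * ZMod.dft Φ (e.symm j),
    fun j => ZMod.stdAddChar (e.symm j), fun j => ?_, fun n hn => ?_⟩
  · exact AddChar.norm_apply _ _
  · have h1 := congrFun (ZMod.dft.symm_apply_apply Φ) (n : ZMod d)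
    rw [hΦ n hn, ZMod.invDFT_apply] at h1
    rw [← h1, smul_eq_mul, Finset.mul_sum, ← e.symm.sum_comp]
    apply Finset.sum_congr rfl
    intro j _
    have h2 : e.symm j * (n : ZMod d) = n • e.symm j := by
      rw [nsmul_eq_mul, mul_comm]
    rw [h2, AddChar.map_nsmul_eq_pow, smul_eq_mul]
    ring

theorem mult_of_periodic (l : ℕ → ℂ) (N d : ℕ) (hd : 0 < d) (h : ∀ n ≥ N, l (n + d) = l n) :
    IsMultiplier l := by
  obtain ⟨J, c, ζ, hζ, hl⟩ := per_fourier l N d hd h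
  apply suff (fun f R z hR hf hz => poisson_jensen hR hf hz) l J c ζ hζ
  intro C
  refine ⟨∑ n ∈ Finset.range N, ‖l n - ∑ j, c j * ζ j ^ n‖ * Real.exp (C * √n), fun n => ?_⟩
  have h0 : 0 ≤ ∑ n ∈ Finset.range N, ‖l n - ∑ j, c j * ζ j ^ n‖ * Real.exp (C * √n) :=
    Finset.sum_nonneg fun n _ => by positivity
  rcases lt_or_ge n N with hn | hn
  · have h1 : ‖l n - ∑ j, c j * ζ j ^ n‖ * Real.exp (C * √n) ≤
        ∑ n ∈ Finset.range N, ‖l n - ∑ j, c j * ζ j ^ n‖ * Real.exp (C * √n) :=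
      Finset.single_le_sum (f := fun n => ‖l n - ∑ j, c j * ζ j ^ n‖ * Real.exp (C * √n))
        (fun n _ => by positivity) (Finset.mem_range.2 hn)
    calc ‖l n - ∑ j, c j * ζ j ^ n‖ = (‖l n - ∑ j, c j * ζ j ^ n‖ * Real.exp (C * √n)) *
          Real.exp (-C * √n) := by
          rw [mul_assoc, ← Real.exp_add]; simp
      _ ≤ _ := mul_le_mul_of_nonneg_right h1 (Real.exp_pos _).le
  · rw [hl n hn]
    simpa using mul_nonneg h0 (Real.exp_pos (-C * √(n : ℝ))).le

end Pool506.Nev
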