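import Pool.Agent.Helper506.Nev.Basic

open Complex MeasureTheory Real Filter Topology Metric Set Polynomial

namespace Pool506.Nev

/-- the gauge `(1/2π) ∫ log (1 + |q(s e^{iθ})|) dθ` -/
noncomputable def rho (q : ℂ[X]) (s : ℝ) : ℝ :=
  circleAverage (fun z => Real.log (1 + ‖q.eval z‖)) 0 s

noncomputable def T1 (q : ℂ[X]) (s : ℝ) : ℝ :=
  circleAverage (fun z => log⁺ ‖q.eval z‖) 0 s

theorem pow_mul_one_sub_le {r : ℝ} (h0 : 0 ≤ r) (h1 : r ≤ 1) (N : ℕ) :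
    r ^ N * (1 - r) ≤ 1 / (N + 1) := by
  have hg : (∑ i ∈ Finset.range (N + 1), r ^ i) * (1 - r) = 1 - r ^ (N + 1) := by
    have := geom_sum_mul r (N + 1)
    linear_combination -this
  have h2 : ((N : ℝ) + 1) * r ^ N ≤ ∑ i ∈ Finset.range (N + 1), r ^ i := by
    calc ((N : ℝ) + 1) * r ^ N = ∑ i ∈ Finset.range (N + 1), r ^ N := by simp
      _ ≤ _ := Finset.sum_le_sum fun i hi =>
        pow_le_pow_of_le_one h0 h1 (Nat.lt_succ_iff.1 (Finset.mem_range.1 hi))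
  rw [le_div_iff₀ (by positivity)]
  have h3 : 0 ≤ r ^ (N + 1) := by positivity
  have h4 : ((N : ℝ) + 1) * r ^ N * (1 - r) ≤ 1 := by
    calc ((N : ℝ) + 1) * r ^ N * (1 - r)
        ≤ (∑ i ∈ Finset.range (N + 1), r ^ i) * (1 - r) :=
          mul_le_mul_of_nonneg_right h2 (by linarith)
      _ = 1 - r ^ (N + 1) := hg
      _ ≤ 1 := by linarith
  linarith

theorem one_sub_pow_le {r : ℝ} (h0 : 0 ≤ r) (h1 : r ≤ 1) (i : ℕ) : 1 - r ^ i ≤ i * (1 - r) := by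
  have := one_add_mul_le_pow (a := r - 1) (by linarith) i
  have h2 : (1 + (r - 1)) = r := by ring
  rw [h2] at this
  linarith

noncomputable def K1 (q : ℂ[X]) : ℝ := ∑ i ∈ q.support, ‖q.coeff i‖ * i

theorem K1_nonneg (q : ℂ[X]) : 0 ≤ K1 q := Finset.sum_nonneg fun i _ => by positivity

theorem eval_sub_le (q : ℂ[X]) (s θ : ℝ) (h0 : 0 ≤ s) (h1 : s ≤ 1) :
    ‖q.eval (circleMap 0 s θ) - q.eval (circleMap 0 1 θ)‖ ≤ K1 q * (1 - s) := by
  rw [eval_eq_sum, eval_eq_sum, Polynomial.sum, Polynomial.sum, ← Finset.sum_sub_distrib]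
  refine (norm_sum_le _ _).trans ?_
  rw [K1, Finset.sum_mul]
  refine Finset.sum_le_sum fun i _ => ?_
  rw [← mul_sub, norm_mul, mul_assoc]
  refine mul_le_mul_of_nonneg_left ?_ (norm_nonneg _)
  have : circleMap 0 s θ = s * circleMap 0 1 θ := by simp [circleMap]
  rw [this, mul_pow, ← sub_one_mul, norm_mul, norm_pow, norm_circleMap_zero, abs_one, one_pow,
    mul_one]
  have h2 : ‖(s : ℂ) ^ i - 1‖ = 1 - s ^ i := by
    rw [← Complex.ofReal_pow, ← Complex.ofReal_one, ← Complex.ofReal_sub, Complex.norm_real,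
      Real.norm_eq_abs, abs_sub_comm, abs_of_nonneg]
    have := pow_le_one₀ (n := i) h0 h1
    linarith
  rw [h2]
  exact one_sub_pow_le h0 h1 i

theorem eval_shift_le (q : ℂ[X]) (N : ℕ) (s θ : ℝ) (h0 : 0 ≤ s) (h1 : s ≤ 1) :
    ‖(X ^ N * q).eval (circleMap 0 s θ)‖ ≤ ‖q.eval (circleMap 0 1 θ)‖ + K1 q / (N + 1) := by
  rw [eval_mul, eval_pow, eval_X, norm_mul, norm_pow, norm_circleMap_zero, abs_of_nonneg h0]
  have h2 : ‖q.eval (circleMap 0 s θ)‖ ≤ ‖q.eval (circleMap 0 1 θ)‖ + K1 q * (1 - s) := by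
    have := eval_sub_le q s θ h0 h1
    have h3 := norm_sub_norm_le (q.eval (circleMap 0 s θ)) (q.eval (circleMap 0 1 θ))
    linarith
  have hs : s ^ N ≤ 1 := pow_le_one₀ h0 h1
  have hs0 : 0 ≤ s ^ N := by positivity
  calc s ^ N * ‖q.eval (circleMap 0 s θ)‖
      ≤ s ^ N * (‖q.eval (circleMap 0 1 θ)‖ + K1 q * (1 - s)) := mul_le_mul_of_nonneg_left h2 hs0
    _ = s ^ N * ‖q.eval (circleMap 0 1 θ)‖ + K1 q * (s ^ N * (1 - s)) := by ring
    _ ≤ 1 * ‖q.eval (circleMap 0 1 θ)‖ + K1 q * (1 / (N + 1)) := by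
        refine add_le_add (mul_le_mul_of_nonneg_right hs (norm_nonneg _)) ?_
        exact mul_le_mul_of_nonneg_left (pow_mul_one_sub_le h0 h1 N) (K1_nonneg q)
    _ = _ := by ring

theorem rho_shift_le (q : ℂ[X]) (N : ℕ) (s : ℝ) (h0 : 0 ≤ s) (h1 : s ≤ 1) :
    rho (X ^ N * q) s ≤ rho q 1 + K1 q / (N + 1) := by
  have hK : 0 ≤ K1 q / (N + 1) := div_nonneg (K1_nonneg q) (by positivity)
  have hc1 : Continuous fun θ : ℝ => Real.log (1 + ‖(X ^ N * q).eval (circleMap 0 s θ)‖) :=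
    (cont_log1 _).comp (continuous_circleMap 0 s)
  have hc2 : Continuous fun θ : ℝ => Real.log (1 + ‖q.eval (circleMap 0 1 θ)‖) :=
    (cont_log1 _).comp (continuous_circleMap 0 1)
  have key : ∀ θ : ℝ, Real.log (1 + ‖(X ^ N * q).eval (circleMap 0 s θ)‖) ≤
      Real.log (1 + ‖q.eval (circleMap 0 1 θ)‖) + K1 q / (N + 1) := by
    intro θ
    have h2 := eval_shift_le q N s θ h0 h1
    set x := ‖q.eval (circleMap 0 1 θ)‖
    have hx : 0 ≤ x := norm_nonneg _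
    have h3 : 1 + ‖(X ^ N * q).eval (circleMap 0 s θ)‖ ≤ (1 + x) * Real.exp (K1 q / (N + 1)) := by
      have h4 := Real.add_one_le_exp (K1 q / (N + 1))
      nlinarith [norm_nonneg ((X ^ N * q).eval (circleMap 0 s θ))]
    calc _ ≤ Real.log ((1 + x) * Real.exp (K1 q / (N + 1))) :=
          Real.log_le_log (by positivity) h3
      _ = _ := by rw [Real.log_mul (by positivity) (Real.exp_ne_zero _), Real.log_exp]
  unfold rho circleAverage
  have h5 : ∫ θ in (0:ℝ)..2 * π, Real.log (1 + ‖(X ^ N * q).eval (circleMap 0 s θ)‖) ≤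
      ∫ θ in (0:ℝ)..2 * π, (Real.log (1 + ‖q.eval (circleMap 0 1 θ)‖) + K1 q / (N + 1)) :=
    intervalIntegral.integral_mono_on (by positivity) (hc1.intervalIntegrable _ _)
      ((hc2.add continuous_const).intervalIntegrable _ _) fun θ _ => key θ
  rw [intervalIntegral.integral_add (hc2.intervalIntegrable _ _) (continuous_const.intervalIntegrable _ _),
    intervalIntegral.integral_const] at h5
  simp only [smul_eq_mul, sub_zero] at h5 ⊢
  have hpi : 0 < 2 * π := by positivity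
  calc (2 * π)⁻¹ * ∫ θ in (0:ℝ)..2 * π, Real.log (1 + ‖(X ^ N * q).eval (circleMap 0 s θ)‖)
      ≤ (2 * π)⁻¹ * ((∫ θ in (0:ℝ)..2 * π, Real.log (1 + ‖q.eval (circleMap 0 1 θ)‖)) +
        2 * π * (K1 q / (N + 1))) := mul_le_mul_of_nonneg_left h5 (by positivity)
    _ = _ := by field_simp

theorem tendsto_shift_sum (q : ℂ[X]) (w : ℕ → ℝ) (hw : Tendsto w atTop (𝓝 0)) :
    Tendsto (fun N : ℕ => ∑' n, ‖(X ^ N * q).coeff n‖ * w n) atTop (𝓝 0) := by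
  simp_rw [tsum_shift]
  have : (0 : ℝ) = ∑ i ∈ Finset.range (q.natDegree + 1), ‖q.coeff i‖ * 0 := by simp
  rw [this]
  refine tendsto_finsetSum _ fun i _ => Tendsto.const_mul _ ?_
  exact hw.comp (tendsto_add_atTop_nat i)

theorem T1_tendsto (p : ℂ[X]) : Tendsto (T1 p) (𝓝[<] 1) (𝓝 (T1 p 1)) := by
  have : Continuous (T1 p) := (cont_logp p).circleAverage
  exact this.continuousAt.tendsto.mono_left nhdsWithin_le_nhds

/-- negation of the uniform bound -/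
def NegBound (l : ℕ → ℂ) : Prop :=
  ∀ δ > 0, ∀ C : ℝ, ∃ q : ℂ[X], rho q 1 ≤ δ ∧ ∃ᶠ N in atTop, C < T1 (Lam l (X ^ N * q)) 1

theorem step (l : ℕ → ℂ) (hl : ∀ r : ℝ, 0 ≤ r → r < 1 → Tendsto (fun n => ‖l n‖ * r ^ n) atTop (𝓝 0))
    (hneg : NegBound l) (R ε C : ℝ) (hR0 : 0 < R) (hR1 : R < 1) (hε : 0 < ε) :
    ∃ (p : ℂ[X]) (r' : ℝ), R < r' ∧ r' < 1 ∧
      (∑' n, ‖p.coeff n‖ * R ^ n ≤ ε) ∧
      (∑' n, ‖p.coeff n‖ * (‖l n‖ * R ^ n) ≤ ε) ∧
      (∀ s : ℝ, 0 < s → s < 1 → rho p s ≤ 2 * ε) ∧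
      C < T1 (Lam l p) r' := by
  obtain ⟨q, hq, hN⟩ := hneg ε hε C
  have h1 : ∀ᶠ N : ℕ in atTop, ∑' n, ‖(X ^ N * q).coeff n‖ * R ^ n ≤ ε :=
    (tendsto_shift_sum q (fun n => R ^ n) (tendsto_pow_atTop_nhds_zero_of_lt_one hR0.le hR1)).eventually
      (Iic_mem_nhds hε)
  have h2 : ∀ᶠ N : ℕ in atTop, ∑' n, ‖(X ^ N * q).coeff n‖ * (‖l n‖ * R ^ n) ≤ ε :=
    (tendsto_shift_sum q (fun n => ‖l n‖ * R ^ n) (hl R hR0.le hR1)).eventually
      (Iic_mem_nhds hε)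
  have h3 : ∀ᶠ N : ℕ in atTop, K1 q / (N + 1) ≤ ε := by
    have : Tendsto (fun N : ℕ => K1 q / ((N : ℝ) + 1)) atTop (𝓝 0) :=
      tendsto_const_nhds.div_atTop (tendsto_natCast_atTop_atTop.atTop_add tendsto_const_nhds)
    exact this.eventually (Iic_mem_nhds hε)
  obtain ⟨N, hNC, hN1, hN2, hN3⟩ := (hN.and_eventually (h1.and (h2.and h3))).exists
  have h4 : ∀ᶠ s in 𝓝[<] (1 : ℝ), C < T1 (Lam l (X ^ N * q)) s :=
    (T1_tendsto _).eventually (Ioi_mem_nhds hNC)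
  have h5 : ∀ᶠ s in 𝓝[<] (1 : ℝ), R < s ∧ s < 1 :=
    (eventually_nhdsWithin_of_eventually_nhds (Ioi_mem_nhds hR1)).and self_mem_nhdsWithin
  obtain ⟨r', hr', hr1, hr2⟩ := (h4.and h5).exists
  refine ⟨X ^ N * q, r', hr1, hr2, hN1, hN2, fun s hs0 hs1 => ?_, hr'⟩
  have := rho_shift_le q N s hs0.le hs1.le
  linarith

end Pool506.Nev
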