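import Pool.Agent.Helper506.Nev.Bound
import Pool.Agent.Helper506.Nev.PJ

open Complex MeasureTheory Real Filter Topology Metric Set Polynomial

namespace Pool506.Nev

theorem cg_poisson_le {R : ℝ} {z w : ℂ} (hz : ‖z‖ < R) (hw : ‖w‖ = R) :
    poissonKernel 0 z w ≤ (R + ‖z‖) / (R - ‖z‖) := by
  have h0 := norm_nonneg z
  rw [poissonKernel_def, sub_zero, sub_zero, hw]
  have h1 : R - ‖z‖ ≤ ‖w - z‖ := by
    have := norm_sub_norm_le w z
    rw [hw] at this
    exact this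
  have h2 : 0 < R - ‖z‖ := by linarith
  have h3 : (R - ‖z‖) ^ 2 ≤ ‖w - z‖ ^ 2 := pow_le_pow_left₀ h2.le h1 2
  have h4 : 0 < (R - ‖z‖) ^ 2 := by positivity
  have h5 : 0 ≤ R ^ 2 - ‖z‖ ^ 2 := by nlinarith
  calc (R ^ 2 - ‖z‖ ^ 2) / ‖w - z‖ ^ 2 ≤ (R ^ 2 - ‖z‖ ^ 2) / (R - ‖z‖) ^ 2 :=
        div_le_div_of_nonneg_left h5 h4 h3
    _ = (R + ‖z‖) / (R - ‖z‖) := by
        field_simp
        ring

theorem cg_poisson_cont {R : ℝ} (hR : 0 < R) {z : ℂ} (hz : ‖z‖ < R) :
    ContinuousOn (fun w => poissonKernel 0 z w) (sphere 0 R) := by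
  unfold poissonKernel
  apply ContinuousOn.div
  · fun_prop
  · fun_prop
  · intro w hw
    have h1 : ‖w‖ = R := by simpa using hw
    have h2 : w - z ≠ 0 := by
      intro h
      have : w = z := sub_eq_zero.1 h
      rw [this] at h1
      linarith
    simpa using h2

/-- pointwise bound -/
theorem cg_bound
    (PJ : ∀ (f : ℂ → ℂ) (R : ℝ) (z : ℂ), 0 < R → AnalyticOnNhd ℂ f (closedBall 0 R) →
      z ∈ ball (0 : ℂ) R → log⁺ ‖f z‖ ≤ circleAverage (fun w => poissonKernel 0 z w * log⁺ ‖f w‖) 0 R)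
    {a : ℕ → ℂ} (ha : ∀ z ∈ ball (0 : ℂ) 1, Summable fun n => a n * z ^ n) {C : ℝ}
    (hC0 : 0 ≤ C) (hC : ∀ r : ℝ, 0 < r → r < 1 → T (S a) r ≤ C) {z : ℂ} (hz : ‖z‖ < 1) :
    log⁺ ‖S a z‖ ≤ 4 * C / (1 - ‖z‖) := by
  have h0 := norm_nonneg z
  set R : ℝ := (1 + ‖z‖) / 2 with hR
  have hR0 : 0 < R := by rw [hR]; linarith
  have hR1 : R < 1 := by rw [hR]; linarith
  have hzR : ‖z‖ < R := by rw [hR]; linarith
  have hsub : closedBall (0 : ℂ) R ⊆ ball 0 1 := closedBall_subset_ball hR1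
  have han : AnalyticOnNhd ℂ (S a) (closedBall 0 R) :=
    ((diffOn_S ha).analyticOnNhd isOpen_ball).mono hsub
  have h1 := PJ (S a) R z hR0 han (by simpa using hzR)
  set M : ℝ := (R + ‖z‖) / (R - ‖z‖) with hM
  have hM0 : 0 ≤ M := by
    apply div_nonneg <;> linarith
  have hint : CircleIntegrable (fun z => log⁺ ‖S a z‖) 0 R := contOn_S ha hR0 hR1
  have hcS : ContinuousOn (fun w => log⁺ ‖S a w‖) (sphere 0 R) := by
    have hc : ContinuousOn (S a) (ball 0 1) := (diffOn_S ha).continuousOn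
    have h2 : ContinuousOn (S a) (sphere 0 R) := hc.mono fun z hz => by
      simp only [mem_sphere_iff_norm, sub_zero] at hz
      simp [hz, hR1]
    exact Real.continuous_posLog.comp_continuousOn h2.norm
  have hint2 : CircleIntegrable (fun w => poissonKernel 0 z w * log⁺ ‖S a w‖) 0 R :=
    ContinuousOn.circleIntegrable hR0.le ((cg_poisson_cont hR0 hzR).mul hcS)
  have hint3 : CircleIntegrable (fun w => M * log⁺ ‖S a w‖) 0 R :=
    ContinuousOn.circleIntegrable hR0.le (continuousOn_const.mul hcS)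
  have h2 : circleAverage (fun w => poissonKernel 0 z w * log⁺ ‖S a w‖) 0 R
      ≤ circleAverage (fun w => M * log⁺ ‖S a w‖) 0 R := by
    apply circleAverage_mono hint2 hint3
    intro w hw
    have hw' : ‖w‖ = R := by simpa [abs_of_pos hR0] using hw
    exact mul_le_mul_of_nonneg_right (cg_poisson_le hzR hw') posLog_nonneg
  have h3 : circleAverage (fun w => M * log⁺ ‖S a w‖) 0 R
      = M * circleAverage (fun w => log⁺ ‖S a w‖) 0 R := by
    have := circleAverage_fun_smul (a := M) (f := fun w => log⁺ ‖S a w‖) (c := 0) (R := R)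
    simpa [smul_eq_mul] using this
  have h4 := hC R hR0 hR1
  rw [T_eq] at h4
  have h5 : M * circleAverage (fun w => log⁺ ‖S a w‖) 0 R ≤ M * C :=
    mul_le_mul_of_nonneg_left h4 hM0
  have h6 : M ≤ 4 / (1 - ‖z‖) := by
    rw [hM, hR, div_le_div_iff₀ (by linarith) (by linarith)]
    nlinarith
  calc log⁺ ‖S a z‖ ≤ M * C := by linarith [h1, h2, h3, h5]
    _ ≤ 4 / (1 - ‖z‖) * C := mul_le_mul_of_nonneg_right h6 hC0
    _ = 4 * C / (1 - ‖z‖) := by ring

/-- Cauchy estimate -/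
theorem cg_cauchy {a : ℕ → ℂ} (ha : ∀ z ∈ ball (0 : ℂ) 1, Summable fun n => a n * z ^ n)
    {r M : ℝ} (hr0 : 0 < r) (hr1 : r < 1) (hM : ∀ z, ‖z‖ = r → ‖S a z‖ ≤ M) (n : ℕ) :
    ‖a n‖ ≤ M * (r⁻¹) ^ n := by
  have h1 : HasFPowerSeriesAt (S a) (FormalMultilinearSeries.ofScalars ℂ a) 0 := by
    rw [hasFPowerSeriesAt_iff]
    have : ball (0 : ℂ) 1 ∈ 𝓝 (0 : ℂ) := ball_mem_nhds 0 one_pos
    filter_upwards [this] with z hz
    have h2 := (ha z hz).hasSum
    rw [zero_add]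
    refine h2.congr_fun ?_ |> fun h => h
    intro k
    simp [FormalMultilinearSeries.coeff_ofScalars, mul_comm]
  set ρ : NNReal := ⟨r, hr0.le⟩ with hρ
  have hρr : (ρ : ℝ) = r := rfl
  have hd : DifferentiableOn ℂ (S a) (closedBall 0 ρ) := by
    rw [hρr]
    exact (diffOn_S ha).mono (closedBall_subset_ball hr1)
  have h2 := (hd.hasFPowerSeriesOnBall (by exact_mod_cast hr0)).hasFPowerSeriesAt
  have h3 := h1.eq_formalMultilinearSeries h2
  have h4 : a n = (cauchyPowerSeries (S a) 0 ρ).coeff n := by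
    rw [← h3, FormalMultilinearSeries.coeff_ofScalars]
  rw [h4, ← FormalMultilinearSeries.norm_apply_eq_norm_coef]
  refine (norm_cauchyPowerSeries_le _ _ _ _).trans ?_
  rw [hρr, abs_of_pos hr0]
  apply mul_le_mul_of_nonneg_right _ (by positivity)
  have h5 : ∫ θ : ℝ in (0 : ℝ)..2 * π, ‖S a (circleMap 0 r θ)‖ ≤ ∫ θ : ℝ in (0 : ℝ)..2 * π, M := by
    apply intervalIntegral.integral_mono_on two_pi_pos.le
    · have hc : ContinuousOn (S a) (ball 0 1) := (diffOn_S ha).continuousOn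
      have h6 : Continuous (fun θ => S a (circleMap 0 r θ)) := by
        apply hc.comp_continuous (by fun_prop)
        intro θ
        simp [circleMap, abs_of_pos hr0, hr1]
      exact h6.norm.intervalIntegrable _ _
    · exact intervalIntegrable_const
    · intro θ _
      apply hM
      simp [circleMap, abs_of_pos hr0]
  rw [intervalIntegral.integral_const, smul_eq_mul, sub_zero] at h5
  have hpi : 0 < 2 * π := two_pi_pos
  calc (2 * π)⁻¹ * ∫ θ : ℝ in (0 : ℝ)..2 * π, ‖S a (circleMap 0 r θ)‖ ≤ (2 * π)⁻¹ * (2 * π * M) :=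
        mul_le_mul_of_nonneg_left h5 (by positivity)
    _ = M := by field_simp

/-- TARGET 1 : coefficients of a function of the Nevanlinna class. -/
theorem coeff_growth
    (PJ : ∀ (f : ℂ → ℂ) (R : ℝ) (z : ℂ), 0 < R → AnalyticOnNhd ℂ f (closedBall 0 R) →
      z ∈ ball (0 : ℂ) R → log⁺ ‖f z‖ ≤ circleAverage (fun w => poissonKernel 0 z w * log⁺ ‖f w‖) 0 R)
    {a : ℕ → ℂ} (ha : ∀ z ∈ ball (0 : ℂ) 1, Summable fun n => a n * z ^ n) (hN : InN (S a)) :
    ∃ c : ℝ, ∀ n : ℕ, ‖a n‖ ≤ Real.exp (c * √n + c) := by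
  obtain ⟨_, C1, hC1⟩ := hN
  set C := max C1 0 with hC
  have hC0 : 0 ≤ C := le_max_right _ _
  have hCT : ∀ r : ℝ, 0 < r → r < 1 → T (S a) r ≤ C := fun r h0 h1 =>
    (hC1 r h0 h1).trans (le_max_left _ _)
  refine ⟨8 * C + 1, fun n => ?_⟩
  set s : ℝ := √n + 2 with hs
  have hn0 : 0 ≤ √(n : ℝ) := Real.sqrt_nonneg _
  have hs2 : 2 ≤ s := by rw [hs]; linarith
  have hs0 : 0 < s := by linarith
  set r : ℝ := 1 - 1 / s with hr
  have h1s : 1 / s ≤ 1 / 2 := one_div_le_one_div_of_le (by norm_num) hs2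
  have h1s0 : 0 < 1 / s := by positivity
  have hr0 : 0 < r := by rw [hr]; linarith
  have hr1 : r < 1 := by rw [hr]; linarith
  have hM : ∀ z, ‖z‖ = r → ‖S a z‖ ≤ Real.exp (4 * C * s) := by
    intro z hz
    have h2 := cg_bound PJ ha hC0 hCT (z := z) (by rw [hz]; exact hr1)
    have h3 : 4 * C / (1 - ‖z‖) = 4 * C * s := by
      rw [hz, hr]
      have : 1 - (1 - 1 / s) = 1 / s := by ring
      rw [this]
      field_simp
    rw [h3] at h2
    by_cases h0 : ‖S a z‖ = 0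
    · rw [h0]; positivity
    · have h4 : Real.log ‖S a z‖ ≤ 4 * C * s := by
        refine le_trans ?_ h2
        rw [posLog_apply]
        exact le_max_right _ _
      have h5 : 0 < ‖S a z‖ := lt_of_le_of_ne (norm_nonneg _) (Ne.symm h0)
      calc ‖S a z‖ = Real.exp (Real.log ‖S a z‖) := (Real.exp_log h5).symm
        _ ≤ Real.exp (4 * C * s) := Real.exp_le_exp.2 h4
  have h6 := cg_cauchy ha hr0 hr1 hM n
  have h7 : (r⁻¹) ^ n ≤ Real.exp (√n) := by
    have h8 : r⁻¹ ≤ Real.exp (1 / (√n + 1)) := by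
      have h9 : r⁻¹ = 1 / (√n + 1) + 1 := by
        rw [hr, hs]
        have : √(n : ℝ) + 2 ≠ 0 := by positivity
        have h10 : √(n : ℝ) + 1 ≠ 0 := by positivity
        have h11 : 1 - 1 / (√(n : ℝ) + 2) = (√n + 1) / (√n + 2) := by
          field_simp
          ring
        rw [h11, inv_div]
        field_simp
        ring
      rw [h9]
      exact Real.add_one_le_exp _
    calc (r⁻¹) ^ n ≤ (Real.exp (1 / (√n + 1))) ^ n := pow_le_pow_left₀ (by positivity) h8 n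
      _ = Real.exp (n * (1 / (√n + 1))) := by rw [← Real.exp_nat_mul]
      _ ≤ Real.exp (√n) := by
        apply Real.exp_le_exp.2
        rw [mul_one_div, div_le_iff₀ (by positivity)]
        have h12 : √(n : ℝ) * √n = n := Real.mul_self_sqrt (Nat.cast_nonneg n)
        nlinarith
  calc ‖a n‖ ≤ Real.exp (4 * C * s) * (r⁻¹) ^ n := h6
    _ ≤ Real.exp (4 * C * s) * Real.exp (√n) := mul_le_mul_of_nonneg_left h7 (Real.exp_pos _).le
    _ = Real.exp (4 * C * s + √n) := by rw [Real.exp_add]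
    _ ≤ Real.exp ((8 * C + 1) * √n + (8 * C + 1)) := by
      apply Real.exp_le_exp.2
      rw [hs]
      nlinarith [mul_nonneg hC0 hn0]

theorem suff_rot (f : ℂ → ℂ) (r : ℝ) {ζ : ℂ} (hζ : ‖ζ‖ = 1) : T (fun z => f (ζ * z)) r = T f r := by
  rw [T_eq, T_eq, circleAverage_eq_integral_add (f := fun z => log⁺ ‖f z‖) ζ.arg, circleAverage]
  congr 1
  apply intervalIntegral.integral_congr
  intro θ _
  simp only [circleMap, zero_add]
  congr 3
  have h1 : ζ = Complex.exp (ζ.arg * I) := by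
    have := Complex.norm_mul_exp_arg_mul_I ζ
    rw [hζ] at this
    simpa using this.symm
  have h2 : Complex.exp ((θ + ζ.arg : ℝ) * I) = Complex.exp (ζ.arg * I) * Complex.exp (θ * I) := by
    rw [← Complex.exp_add]
    congr 1
    push_cast
    ring
  rw [h2, ← h1]
  ring

theorem suff_summable_exp : Summable fun n : ℕ => Real.exp (-√(n : ℝ)) := by
  have h1 : Summable fun n : ℕ => 24 * (1 / (n : ℝ) ^ 2) :=
    (Real.summable_one_div_nat_pow.2 (by norm_num)).mul_left 24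
  refine Summable.of_norm_bounded_eventually_nat h1 ?_
  filter_upwards [eventually_ge_atTop 1] with n hn
  have hn0 : (0 : ℝ) < n := by exact_mod_cast hn
  have hs0 : 0 < √(n : ℝ) := Real.sqrt_pos.2 hn0
  have h2 := Real.pow_div_factorial_le_exp (√(n : ℝ)) hs0.le 4
  have h3 : (√(n : ℝ)) ^ 4 = (n : ℝ) ^ 2 := by
    have : (√(n : ℝ)) ^ 2 = n := Real.sq_sqrt hn0.le
    calc (√(n : ℝ)) ^ 4 = ((√(n : ℝ)) ^ 2) ^ 2 := by ring
      _ = _ := by rw [this]
  rw [h3] at h2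
  have h4 : ((Nat.factorial 4 : ℕ) : ℝ) = 24 := by norm_num [Nat.factorial]
  rw [h4] at h2
  rw [Real.norm_eq_abs, abs_of_pos (Real.exp_pos _), Real.exp_neg]
  rw [inv_le_comm₀ (Real.exp_pos _) (by positivity)]
  calc (24 * (1 / (n : ℝ) ^ 2))⁻¹ = (n : ℝ) ^ 2 / 24 := by field_simp
    _ ≤ _ := h2

theorem suff_circ {f : ℂ → ℝ} {r : ℝ} (h : CircleIntegrable f 0 r) (k : ℝ) :
    CircleIntegrable (fun z => k + f z) 0 r := by
  have := (circleIntegrable_const k 0 r).add h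
  exact this

/-- TARGET 2 : finite sums of rotations plus a small sequence are multipliers. -/
theorem suff
    (PJ : ∀ (f : ℂ → ℂ) (R : ℝ) (z : ℂ), 0 < R → AnalyticOnNhd ℂ f (closedBall 0 R) →
      z ∈ ball (0 : ℂ) R → log⁺ ‖f z‖ ≤ circleAverage (fun w => poissonKernel 0 z w * log⁺ ‖f w‖) 0 R)
    (l : ℕ → ℂ) (J : ℕ) (c ζ : Fin J → ℂ) (hζ : ∀ j, ‖ζ j‖ = 1)
    (h : ∀ C : ℝ, ∃ K : ℝ, ∀ n : ℕ, ‖l n - ∑ j, c j * ζ j ^ n‖ ≤ K * Real.exp (-C * √n)) :
    IsMultiplier l := by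
  intro a ha hN
  obtain ⟨c0, hc0⟩ := coeff_growth PJ ha hN
  obtain ⟨_, C0, hC0⟩ := hN
  obtain ⟨K, hK⟩ := h (c0 + 1)
  set ε : ℕ → ℂ := fun n => l n - ∑ j, c j * ζ j ^ n with hε
  have hεa : ∀ n, ‖ε n * a n‖ ≤ K * Real.exp c0 * Real.exp (-√(n : ℝ)) := by
    intro n
    rw [norm_mul]
    have h1 := hK n
    have h2 := hc0 n
    have h3 : 0 ≤ K * Real.exp (-(c0 + 1) * √n) := (norm_nonneg _).trans h1
    calc ‖ε n‖ * ‖a n‖ ≤ (K * Real.exp (-(c0 + 1) * √n)) * Real.exp (c0 * √n + c0) :=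
          mul_le_mul h1 h2 (norm_nonneg _) h3
      _ = K * (Real.exp (-(c0 + 1) * √n) * Real.exp (c0 * √n + c0)) := by ring
      _ = K * (Real.exp c0 * Real.exp (-√(n : ℝ))) := by
          rw [← Real.exp_add, ← Real.exp_add]
          congr 2
          ring
      _ = _ := by ring
  have hsum : Summable fun n => ‖ε n * a n‖ :=
    Summable.of_nonneg_of_le (fun n => norm_nonneg _) hεa (suff_summable_exp.mul_left _)
  set B : ℝ := ∑' n, ‖ε n * a n‖ with hB
  have hrot : ∀ j, ∀ z ∈ ball (0 : ℂ) 1, ζ j * z ∈ ball (0 : ℂ) 1 := by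
    intro j z hz
    simpa [hζ j] using hz
  have hEs : ∀ z ∈ ball (0 : ℂ) 1, Summable fun n => ε n * a n * z ^ n := by
    intro z hz
    refine Summable.of_norm_bounded hsum ?_
    intro n
    rw [norm_mul, norm_pow]
    have hz1 : ‖z‖ ≤ 1 := by
      have := mem_ball_zero_iff.1 hz
      exact this.le
    calc ‖ε n * a n‖ * ‖z‖ ^ n ≤ ‖ε n * a n‖ * 1 :=
          mul_le_mul_of_nonneg_left (pow_le_one₀ (norm_nonneg _) hz1) (norm_nonneg _)
      _ = _ := mul_one _
  have hjs : ∀ j, ∀ z ∈ ball (0 : ℂ) 1, Summable fun n => a n * (ζ j * z) ^ n :=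
    fun j z hz => ha _ (hrot j z hz)
  have hterm : ∀ z n, l n * a n * z ^ n =
      (∑ j, c j * (a n * (ζ j * z) ^ n)) + ε n * a n * z ^ n := by
    intro z n
    have h1 : l n = ε n + ∑ j, c j * ζ j ^ n := by rw [hε]; ring
    rw [h1, add_mul, add_mul, add_comm, Finset.sum_mul, Finset.sum_mul]
    congr 1
    apply Finset.sum_congr rfl
    intro j _
    rw [mul_pow]
    ring
  have hjs2 : ∀ z ∈ ball (0 : ℂ) 1, Summable fun n => ∑ j, c j * (a n * (ζ j * z) ^ n) := by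
    intro z hz
    exact summable_sum fun j _ => (hjs j z hz).mul_left (c j)
  have hall : ∀ z ∈ ball (0 : ℂ) 1, Summable fun n => l n * a n * z ^ n := by
    intro z hz
    refine ((hjs2 z hz).add (hEs z hz)).congr ?_
    intro n
    exact (hterm z n).symm
  have hSeq : ∀ z ∈ ball (0 : ℂ) 1, S (fun n => l n * a n) z =
      (∑ j, c j * S a (ζ j * z)) + S (fun n => ε n * a n) z := by
    intro z hz
    unfold S
    rw [tsum_congr (hterm z), Summable.tsum_add (hjs2 z hz) (hEs z hz)]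
    congr 1
    rw [Summable.tsum_finsetSum (fun j _ => (hjs j z hz).mul_left (c j))]
    apply Finset.sum_congr rfl
    intro j _
    rw [tsum_mul_left]
  have hEB : ∀ z ∈ ball (0 : ℂ) 1, ‖S (fun n => ε n * a n) z‖ ≤ B := by
    intro z hz
    have hz1 : ‖z‖ ≤ 1 := by
      have := mem_ball_zero_iff.1 hz
      exact this.le
    unfold S
    have h1 : Summable fun n => ‖ε n * a n * z ^ n‖ := (hEs z hz).norm
    refine (norm_tsum_le_tsum_norm h1).trans ?_
    apply Summable.tsum_le_tsum _ h1 hsum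
    intro n
    rw [norm_mul, norm_pow]
    calc ‖ε n * a n‖ * ‖z‖ ^ n ≤ ‖ε n * a n‖ * 1 :=
          mul_le_mul_of_nonneg_left (pow_le_one₀ (norm_nonneg _) hz1) (norm_nonneg _)
      _ = _ := mul_one _
  have hSrot : ∀ j z, S a (ζ j * z) = S (fun n => a n * ζ j ^ n) z := by
    intro j z
    unfold S
    apply tsum_congr
    intro n
    rw [mul_pow]
    ring
  have hjs3 : ∀ j, ∀ z ∈ ball (0 : ℂ) 1, Summable fun n => a n * ζ j ^ n * z ^ n := by
    intro j z hz
    refine (hjs j z hz).congr ?_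
    intro n
    rw [mul_pow]
    ring
  set k0 : ℝ := Real.log 2 + log⁺ B + Real.log (J : ℝ) + ∑ j, log⁺ ‖c j‖ with hk0
  have hpt : ∀ z ∈ ball (0 : ℂ) 1, log⁺ ‖S (fun n => l n * a n) z‖ ≤
      k0 + ∑ j, log⁺ ‖S (fun n => a n * ζ j ^ n) z‖ := by
    intro z hz
    rw [hSeq z hz]
    have h1 := posLog_norm_add_le (∑ j, c j * S a (ζ j * z)) (S (fun n => ε n * a n) z)
    have h2 := posLog_norm_sum_le Finset.univ (fun j => c j * S a (ζ j * z))
    have h3 : ∑ j, log⁺ ‖c j * S a (ζ j * z)‖ ≤ ∑ j, (log⁺ ‖c j‖ + log⁺ ‖S (fun n => a n * ζ j ^ n) z‖) := by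
      apply Finset.sum_le_sum
      intro j _
      rw [norm_mul, hSrot]
      exact posLog_mul
    rw [Finset.sum_add_distrib] at h3
    have h4 : log⁺ ‖S (fun n => ε n * a n) z‖ ≤ log⁺ B := posLog_le_posLog (norm_nonneg _) (hEB z hz)
    have h5 : (Finset.univ : Finset (Fin J)).card = J := by simp
    rw [h5] at h2
    rw [hk0]
    linarith
  refine ⟨hall, diffOn_S hall, k0 + J * C0, ?_⟩
  intro r hr0 hr1
  rw [T_eq]
  have hint1 : CircleIntegrable (fun z => log⁺ ‖S (fun n => l n * a n) z‖) 0 r :=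
    contOn_S hall hr0 hr1
  have hint2 : ∀ j ∈ (Finset.univ : Finset (Fin J)),
      CircleIntegrable (fun z => log⁺ ‖S (fun n => a n * ζ j ^ n) z‖) 0 r := fun j _ =>
    contOn_S (hjs3 j) hr0 hr1
  have hint3 : CircleIntegrable (fun z => ∑ j, log⁺ ‖S (fun n => a n * ζ j ^ n) z‖) 0 r :=
    CircleIntegrable.fun_sum Finset.univ hint2
  have h1 : circleAverage (fun z => log⁺ ‖S (fun n => l n * a n) z‖) 0 r ≤
      circleAverage (fun z => k0 + ∑ j, log⁺ ‖S (fun n => a n * ζ j ^ n) z‖) 0 r := by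
    apply circleAverage_mono hint1 (suff_circ hint3 k0)
    intro z hz
    apply hpt
    have : ‖z‖ = r := by simpa [abs_of_pos hr0] using hz
    simp [this, hr1]
  have h2 : circleAverage (fun z => k0 + ∑ j, log⁺ ‖S (fun n => a n * ζ j ^ n) z‖) 0 r =
      k0 + ∑ j, circleAverage (fun z => log⁺ ‖S (fun n => a n * ζ j ^ n) z‖) 0 r := by
    rw [circleAverage_fun_add (circleIntegrable_const k0 0 r) hint3, circleAverage_const,
      circleAverage_fun_sum hint2]
  have h3 : ∀ j, circleAverage (fun z => log⁺ ‖S (fun n => a n * ζ j ^ n) z‖) 0 r ≤ C0 := by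
    intro j
    have h4 := hC0 r hr0 hr1
    rw [← suff_rot (S a) r (hζ j), T_eq] at h4
    simp only [hSrot] at h4
    exact h4
  have h4 : ∑ j, circleAverage (fun z => log⁺ ‖S (fun n => a n * ζ j ^ n) z‖) 0 r ≤ J * C0 := by
    calc _ ≤ ∑ _j : Fin J, C0 := Finset.sum_le_sum fun j _ => h3 j
      _ = J * C0 := by simp
  linarith

end Pool506.Nev
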